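import Pool.Agent.Lib_helper5.P5Rel

/-!
Odd periods of any length: the half sum of a word and its invariance under the deletion of
quotients which vanish modulo `M`.
-/

namespace Pool.Agent.LibH4.LO

open Finset Pool.Agent.Lib_helper5 Pool.Agent.LibH4 Pool.Agent.LibH4.KF

/-- next state -/
def st (x : ℤ) (f : ℤ × ℤ × ℤ) : ℤ × ℤ × ℤ :=
  (f.2.2, 2 * x * f.2.2 - f.2.1, f.1 + f.2.1 * x - f.2.2 * x ^ 2)

/-- discriminant of a state -/
def dis (f : ℤ × ℤ × ℤ) : ℤ := f.2.1 ^ 2 + 4 * f.1 * f.2.2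

/-- last state -/
def en : ℤ × ℤ × ℤ → List ℤ → ℤ × ℤ × ℤ
  | f, [] => f
  | f, x :: L => en (st x f) L

lemma dis_st (x : ℤ) (f : ℤ × ℤ × ℤ) : dis (st x f) = dis f := by
  unfold dis st; ring

lemma dis_en (L : List ℤ) (f : ℤ × ℤ × ℤ) : dis (en f L) = dis f := by
  induction L generalizing f with
  | nil => rfl
  | cons x L ih => exact (ih _).trans (dis_st x f)

lemma st_zero (f : ℤ × ℤ × ℤ) : st 0 f = (f.2.2, -f.2.1, f.1) := by
  unfold st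
  simp only [mul_zero, zero_mul, add_zero, zero_sub]
  congr 2
  ring

lemma st_merge (x y : ℤ) (f : ℤ × ℤ × ℤ) : st y (st 0 (st x f)) = st (x + y) f := by
  rw [st_zero]
  unfold st
  simp only
  congr 2
  · ring
  · ring

section Sums

variable {q N : ℕ} [NeZero q] (χ : ZMod q → ZMod N)

/-- first sum of a state -/
def XS (f : ℤ × ℤ × ℤ) : ZMod N := KF.XX χ f.1 f.2.1 (-f.2.2)
/-- second sum of a state -/
def YS (f : ℤ × ℤ × ℤ) : ZMod N := KF.YX χ f.1 f.2.1 (-f.2.2)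
/-- second sum of a state at the other cusp -/
def YB (f : ℤ × ℤ × ℤ) : ZMod N := KF.YX χ f.2.2 f.2.1 (-f.1)

/-- the half sum of a word -/
def W : ℤ × ℤ × ℤ → List ℤ → ZMod N
  | f, [] => 3 * XS χ f
  | f, x :: L => 6 * XS χ f - 2 * x * YS χ f + W (st x f) L

/-- the half sum of a word, with the term of the first quotient -/
def V (B m : ℤ) (L : List ℤ) : ZMod N := -B * YS χ (m, B, 1) + W χ (1, B, m) L

variable {χ}

lemma XS_swap (hodd : ∀ x, χ (-x) = - χ x) (P R S : ℤ) : XS χ (S, R, P) = XS χ (P, R, S) := by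
  have h := KF.XX_swap χ hodd P R (-S)
  rw [neg_neg] at h
  exact h

lemma XS_neg (P R S : ℤ) : XS χ (P, -R, S) = - XS χ (P, R, S) := K5.XX_neg χ P R (-S)

lemma YS_neg (P R S : ℤ) : YS χ (P, -R, S) = YS χ (P, R, S) := K5.YX_neg χ P R (-S)

lemma XS_st_zero (hodd : ∀ x, χ (-x) = - χ x) (f : ℤ × ℤ × ℤ) : XS χ (st 0 f) = - XS χ f := by
  rw [st_zero, XS_neg, XS_swap hodd]

lemma YS_st_zero (f : ℤ × ℤ × ℤ) : YS χ (st 0 f) = YB χ f := by
  rw [st_zero, YS_neg]; rfl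

/-- the cusp of a state -/
lemma YB_st (hodd : ∀ x, χ (-x) = - χ x) (x : ℤ) (f : ℤ × ℤ × ℤ) : YB χ (st x f) = YS χ f := by
  have h1 := KF.YX_swap χ hodd f.2.2 (2 * x * f.2.2 - f.2.1) (-(f.1 + f.2.1 * x - f.2.2 * x ^ 2))
  rw [neg_neg, K5.YY_step χ hodd f.1 f.2.1 f.2.2 x, neg_neg] at h1
  exact h1

/-- a vanishing quotient in the middle -/
lemma W_mid (hodd : ∀ x, χ (-x) = - χ x) (x y : ℤ) (L : List ℤ) (f : ℤ × ℤ × ℤ) :
    W χ f (x :: 0 :: y :: L) = W χ f ((x + y) :: L) := by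
  change 6 * XS χ f - 2 * x * YS χ f + (6 * XS χ (st x f) - 2 * (0 : ℤ) * YS χ (st x f) +
    (6 * XS χ (st 0 (st x f)) - 2 * y * YS χ (st 0 (st x f)) + W χ (st y (st 0 (st x f))) L)) =
    6 * XS χ f - 2 * (x + y : ℤ) * YS χ f + W χ (st (x + y) f) L
  rw [XS_st_zero hodd, YS_st_zero, YB_st hodd, st_merge]
  push_cast
  ring

/-- a vanishing quotient at the end -/
lemma W_end (hodd : ∀ x, χ (-x) = - χ x) (f : ℤ × ℤ × ℤ) : W χ f [0] = W χ f [] := by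
  change 6 * XS χ f - 2 * (0 : ℤ) * YS χ f + 3 * XS χ (st 0 f) = 3 * XS χ f
  rw [XS_st_zero hodd]
  push_cast
  ring

/-- a vanishing quotient at the start -/
lemma V_front (hodd : ∀ x, χ (-x) = - χ x) (B m y : ℤ) (L : List ℤ) :
    V χ B m (0 :: y :: L) = V χ (B + 2 * y) (m - B * y - y ^ 2) L := by
  have e1 : st 0 ((1, B, m) : ℤ × ℤ × ℤ) = (m, -B, 1) := st_zero _
  have e2 : st y ((m, -B, 1) : ℤ × ℤ × ℤ) = (1, B + 2 * y, m - B * y - y ^ 2) := by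
    unfold st
    simp only
    congr 2
    · ring
    · ring
  have e3 : YS χ (m - B * y - y ^ 2, B + 2 * y, 1) = YS χ (m, B, 1) := by
    have h1 := YB_st hodd y ((m, -B, 1) : ℤ × ℤ × ℤ)
    rw [e2, YS_neg] at h1
    exact h1
  change -(B : ZMod N) * YS χ (m, B, 1) + (6 * XS χ (1, B, m) - 2 * (0 : ℤ) * YS χ (1, B, m) +
    (6 * XS χ (st 0 (1, B, m)) - 2 * y * YS χ (st 0 (1, B, m)) +
      W χ (st y (st 0 (1, B, m))) L)) =
    -((B + 2 * y : ℤ) : ZMod N) * YS χ (m - B * y - y ^ 2, B + 2 * y, 1) +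
      W χ (1, B + 2 * y, m - B * y - y ^ 2) L
  rw [XS_st_zero hodd, e3, e1, YS_neg, e2]
  push_cast
  ring

/-! ### congruences -/

/-- congruence of states -/
def Cg (M : ℕ) (f g : ℤ × ℤ × ℤ) : Prop :=
  (M : ℤ) ∣ f.1 - g.1 ∧ (M : ℤ) ∣ f.2.1 - g.2.1 ∧ (M : ℤ) ∣ f.2.2 - g.2.2

omit [NeZero q] in
lemma cast_eq {M n : ℕ} (h : n ∣ M) {x y : ℤ} (hxy : (M : ℤ) ∣ x - y) :
    (x : ZMod n) = (y : ZMod n) := by
  have h1 : (n : ℤ) ∣ x - y := (Int.natCast_dvd_natCast.2 h).trans hxy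
  rw [← sub_eq_zero, ← Int.cast_sub, ZMod.intCast_zmod_eq_zero_iff_dvd]
  exact h1

lemma Cg.refl (M : ℕ) (f : ℤ × ℤ × ℤ) : Cg M f f := by
  unfold Cg; simp

lemma Cg.st {M : ℕ} {f g : ℤ × ℤ × ℤ} (h : Cg M f g) {x y : ℤ} (hxy : (M : ℤ) ∣ x - y) :
    Cg M (LO.st x f) (LO.st y g) := by
  obtain ⟨h1, h2, h3⟩ := h
  obtain ⟨a, ha⟩ := h1
  obtain ⟨b, hb⟩ := h2
  obtain ⟨c, hc⟩ := h3
  obtain ⟨e, he⟩ := hxy
  have ea : f.1 = g.1 + M * a := by linarith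
  have eb : f.2.1 = g.2.1 + M * b := by linarith
  have ec : f.2.2 = g.2.2 + M * c := by linarith
  have ee : x = y + M * e := by linarith
  unfold LO.st Cg
  simp only
  refine ⟨⟨c, hc⟩, ?_, ?_⟩
  · rw [eb, ec, ee]
    exact ⟨2 * y * c + 2 * e * g.2.2 + 2 * e * c * M - b, by ring⟩
  · rw [ea, eb, ec, ee]
    exact ⟨a + b * y + g.2.1 * e + b * e * M - (c * y ^ 2 + (g.2.2 + M * c) * (2 * y * e +
      M * e ^ 2)), by ring⟩

lemma XS_congr {M : ℕ} (hq : q ∣ M) {f g : ℤ × ℤ × ℤ} (h : Cg M f g) : XS χ f = XS χ g := by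
  unfold XS KF.XX fz
  push_cast
  rw [cast_eq hq h.1, cast_eq hq h.2.1, cast_eq hq h.2.2]

lemma YS_congr {M : ℕ} (hq : q ∣ M) {f g : ℤ × ℤ × ℤ} (h : Cg M f g) : YS χ f = YS χ g := by
  unfold YS KF.YX fz
  push_cast
  rw [cast_eq hq h.1, cast_eq hq h.2.1, cast_eq hq h.2.2]

lemma W_congr {M : ℕ} (hq : q ∣ M) (L : List ℤ) {f g : ℤ × ℤ × ℤ} (h : Cg M f g) :
    W χ f L = W χ g L := by
  induction L generalizing f g with
  | nil =>
    change 3 * XS χ f = 3 * XS χ g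
    rw [XS_congr hq h]
  | cons x L ih =>
    change 6 * XS χ f - 2 * x * YS χ f + W χ (st x f) L =
      6 * XS χ g - 2 * x * YS χ g + W χ (st x g) L
    rw [XS_congr hq h, YS_congr hq h, ih (h.st (x := x) (y := x) (by simp))]

end Sums

/-! ### the class of relations -/

/-- the relations which depend only on the classes modulo `M` -/
structure RC (M : ℕ) (D : ℤ) {q N : ℕ} [NeZero q] (l : ℕ) (χ : ZMod q → ZMod N) : Prop where
  odd : ∀ x, χ (-x) = - χ x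
  zero : χ 0 = 0
  qM : q ∣ M
  lM : l ∣ M
  Y : ∀ P R S : ℤ, (M : ℤ) ∣ R ^ 2 + 4 * P * S - D → (l : ZMod N) * KF.YX χ P R (-S) = 0

section RC

variable {M : ℕ} {D : ℤ} {q N : ℕ} [NeZero q] {l : ℕ} {χ : ZMod q → ZMod N}

lemma RC.coef (h : RC M D l χ) {f : ℤ × ℤ × ℤ} (hf : (M : ℤ) ∣ dis f - D) {x y : ℤ}
    (hxy : (M : ℤ) ∣ x - y) : (x : ZMod N) * YS χ f = y * YS χ f := by
  obtain ⟨k, hk⟩ : (l : ℤ) ∣ x - y := (Int.natCast_dvd_natCast.2 h.lM).trans hxy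
  have hx : x = y + l * k := by linarith
  have h1 := h.Y f.1 f.2.1 f.2.2 hf
  have h2 : (l : ZMod N) * YS χ f = 0 := h1
  rw [hx]
  push_cast
  linear_combination (k : ZMod N) * h2

/-- change of the first quotient -/
lemma RC.W_head (h : RC M D l χ) {f : ℤ × ℤ × ℤ} (hf : (M : ℤ) ∣ dis f - D) {x y : ℤ}
    (hxy : (M : ℤ) ∣ x - y) (L : List ℤ) : W χ f (x :: L) = W χ f (y :: L) := by
  change 6 * XS χ f - 2 * x * YS χ f + W χ (st x f) L =
    6 * XS χ f - 2 * y * YS χ f + W χ (st y f) L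
  rw [W_congr h.qM L ((Cg.refl M f).st hxy)]
  linear_combination (-2 : ZMod N) * h.coef hf hxy

end RC

/-- the closing condition modulo `M` -/
def Clo (M : ℕ) (f : ℤ × ℤ × ℤ) : Prop := (M : ℤ) ∣ f.1 - f.2.2

lemma Clo.congr {M : ℕ} {f g : ℤ × ℤ × ℤ} (h : Cg M f g) (hf : Clo M f) : Clo M g := by
  obtain ⟨h1, -, h3⟩ := h
  unfold Clo at hf ⊢
  have e : g.1 - g.2.2 = (f.1 - f.2.2) - (f.1 - g.1) + (f.2.2 - g.2.2) := by ring
  rw [e]
  exact dvd_add (dvd_sub hf h1) h3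

lemma en_congr {M : ℕ} (L : List ℤ) {f g : ℤ × ℤ × ℤ} (h : Cg M f g) :
    Cg M (en f L) (en g L) := by
  induction L generalizing f g with
  | nil => exact h
  | cons x L ih => exact ih (h.st (x := x) (y := x) (by simp))

/-- words with the same sums and the same closing condition -/
def Eqv (M : ℕ) (D : ℤ) (L L' : List ℤ) : Prop :=
  ∀ f : ℤ × ℤ × ℤ, (M : ℤ) ∣ dis f - D →
    (∀ (q N : ℕ) [NeZero q] (l : ℕ) (χ : ZMod q → ZMod N), RC M D l χ → W χ f L = W χ f L') ∧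
    (Clo M (en f L) → Clo M (en f L'))

section Eqv

variable {M : ℕ} {D : ℤ}

lemma Eqv.refl (L : List ℤ) : Eqv M D L L := fun _ _ => ⟨fun _ _ _ _ _ _ => rfl, id⟩

lemma Eqv.trans {L L' L'' : List ℤ} (h : Eqv M D L L') (h' : Eqv M D L' L'') :
    Eqv M D L L'' := fun f hf =>
  ⟨fun q N _ l χ hχ => ((h f hf).1 q N l χ hχ).trans ((h' f hf).1 q N l χ hχ),
    fun hc => (h' f hf).2 ((h f hf).2 hc)⟩

lemma Eqv.cons {L L' : List ℤ} (h : Eqv M D L L') (x : ℤ) : Eqv M D (x :: L) (x :: L') := by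
  intro f hf
  have hf' : (M : ℤ) ∣ dis (st x f) - D := by rw [dis_st]; exact hf
  refine ⟨fun q N _ l χ hχ => ?_, fun hc => (h _ hf').2 hc⟩
  change 6 * XS χ f - 2 * x * YS χ f + W χ (st x f) L =
    6 * XS χ f - 2 * x * YS χ f + W χ (st x f) L'
  rw [(h _ hf').1 q N l χ hχ]

lemma Eqv.head {x y : ℤ} (hxy : (M : ℤ) ∣ x - y) (L : List ℤ) :
    Eqv M D (x :: L) (y :: L) := fun f hf =>
  ⟨fun q N _ l χ hχ => hχ.W_head hf hxy L, fun hc =>
    Clo.congr (en_congr L ((Cg.refl M f).st hxy)) hc⟩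

lemma Eqv.mid (x y : ℤ) (L : List ℤ) : Eqv M D (x :: 0 :: y :: L) ((x + y) :: L) :=
  fun f _ => ⟨fun _ _ _ _ _ hχ => W_mid hχ.odd x y L f, fun hc => by
    change Clo M (en (st y (st 0 (st x f))) L) at hc
    rw [st_merge] at hc
    exact hc⟩

lemma Eqv.last : Eqv M D [0] [] := fun f _ =>
  ⟨fun _ _ _ _ _ hχ => W_end hχ.odd f, fun hc => by
    change Clo M (st 0 f) at hc
    rw [st_zero] at hc
    unfold Clo at hc ⊢
    change (M : ℤ) ∣ f.1 - f.2.2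
    rw [← neg_sub]
    exact (dvd_neg).2 hc⟩

lemma Eqv.last' : Eqv M D [] [0] := fun f _ =>
  ⟨fun _ _ _ _ _ hχ => (W_end hχ.odd f).symm, fun hc => by
    change Clo M (st 0 f)
    rw [st_zero]
    unfold Clo at hc ⊢
    change (M : ℤ) ∣ f.2.2 - f.1
    rw [← neg_sub]
    exact (dvd_neg).2 hc⟩

end Eqv

end Pool.Agent.LibH4.LO
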