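import Pool.Agent.Lib_helper4.LO.Half
import Pool.Agent.Lib_helper4.CFFive

/-!
Odd periods of any length: the relation of the cycle as a half sum.
-/

namespace Pool.Agent.LibH4.LO

open Finset Function Pool.Agent.Lib_helper5 Pool.Agent.LibH4 Pool.Agent.LibH4.KF
  Pool.Agent.LibH4.CFO

/-- the word of the quotients with index `k, ..., k + n - 1` -/
def wd (c : ℕ → ℕ) : ℕ → ℕ → List ℤ
  | _, 0 => []
  | k, n + 1 => (c k : ℤ) :: wd c (k + 1) n

/-- the word of the first half as a map -/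
lemma wd_eq (c : ℕ → ℕ) (k n : ℕ) : wd c k n = (List.range n).map fun i => (c (k + i) : ℤ) := by
  induction n generalizing k with
  | zero => rfl
  | succ n ih =>
    change (c k : ℤ) :: wd c (k + 1) n = _
    rw [ih, List.range_succ_eq_map, List.map_cons, List.map_map, add_zero]
    congr 1
    apply List.map_congr_left
    intro i _
    simp only [Function.comp_apply]
    congr 2
    omega

section

variable {m B : ℤ} {c : ℕ → ℕ}

lemma qst_succ (k : ℕ) : qst m B c (k + 1) = st (c k) (qst m B c k) := rfl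

lemma qst_eta (k : ℕ) : qst m B c k = (QP m B c k, QR m B c k, QS m B c k) := rfl

lemma en_wd (k n : ℕ) : en (qst m B c k) (wd c k n) = qst m B c (k + n) := by
  induction n generalizing k with
  | zero => rfl
  | succ n ih =>
    change en (st (c k) (qst m B c k)) (wd c (k + 1) n) = _
    rw [← qst_succ, ih, show k + 1 + n = k + (n + 1) by ring]

variable {q N : ℕ} [NeZero q] {χ : ZMod q → ZMod N}

lemma W_wd (k n : ℕ) : W χ (qst m B c k) (wd c k n) =
    ∑ i ∈ range n, (6 * XS χ (qst m B c (k + i)) - 2 * (c (k + i) : ZMod N) *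
      YS χ (qst m B c (k + i))) + 3 * XS χ (qst m B c (k + n)) := by
  induction n generalizing k with
  | zero => simp [wd, W]
  | succ n ih =>
    change 6 * XS χ (qst m B c k) - 2 * ((c k : ℤ) : ZMod N) * YS χ (qst m B c k) +
      W χ (st (c k) (qst m B c k)) (wd c (k + 1) n) = _
    rw [← qst_succ, ih, Finset.sum_range_succ' _ n]
    have e : ∀ i, k + 1 + i = k + (i + 1) := fun i => by ring
    simp only [e, add_zero]
    push_cast
    ring

end

variable {m B : ℤ} {s : ℝ} {x : ℕ → ℝ} {c : ℕ → ℕ}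

/-- states of the second half of the period -/
lemma qst_palin (h : Data m B s x c) {L : ℕ} (hper : ∀ k, x (k + L) = x k) {k j : ℕ}
    (hkj : k + j = L) {q N : ℕ} [NeZero q] {χ : ZMod q → ZMod N} (hodd : ∀ x, χ (-x) = - χ x) :
    XS χ (qst m B c j) = XS χ (qst m B c (k + 1)) ∧ YS χ (qst m B c j) = YS χ (qst m B c k) ∧
      c j = c k := by
  obtain ⟨p1, p2, p3, p4⟩ := palin h hper k j hkj
  have e1 : qst m B c j = (QS m B c (k + 1), QR m B c (k + 1), QS m B c k) := by
    rw [qst_eta, p1, p2, p3]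
  have e2 : qst m B c (k + 1) = (QS m B c k, QR m B c (k + 1), QS m B c (k + 1)) := rfl
  refine ⟨?_, ?_, p4⟩
  · rw [e1, e2, XS_swap hodd]
  · have h1 := YB_st hodd (c k) (qst m B c k)
    rw [← qst_succ, e2] at h1
    rw [e1, ← h1]
    rfl

/-- the sum over the cycle is the half sum -/
theorem fold (h : Data m B s x c) {I : ℕ} (hL : minimalPeriod gsh (x 1) = 2 * I + 1)
    {q N : ℕ} [NeZero q] {χ : ZMod q → ZMod N} (hodd : ∀ x, χ (-x) = - χ x) :
    ∑ k ∈ range (2 * I + 1), (3 * XS χ (qst m B c k) - (c k : ZMod N) * YS χ (qst m B c k)) =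
      V χ B m (wd c 1 I) := by
  have hfix : gsh^[2 * I + 1] (x 1) = x 1 := by
    have := isPeriodicPt_minimalPeriod gsh (x 1)
    rw [hL] at this
    exact this
  have hper := x_per h hfix
  have e0 : qst m B c 0 = (m, B, 1) := rfl
  have e1 : qst m B c 1 = (1, B, m) := by
    rw [qst_eta, QR_one h, QS_one h]; rfl
  have hc0 : ((c 0 : ℕ) : ZMod N) = (B : ZMod N) := by
    rw [← c_zero h, Int.cast_natCast]
  set T : ℕ → ZMod N := fun k => 3 * XS χ (qst m B c k) - (c k : ZMod N) * YS χ (qst m B c k)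
    with hT
  have hsum : ∑ k ∈ range (2 * I + 1), T k =
      T 0 + ∑ i ∈ range I, (T (i + 1) + T (2 * I + 1 - (i + 1))) := by
    rw [Finset.sum_range_succ', add_comm, two_mul, Finset.sum_range_add, Finset.sum_add_distrib]
    congr 2
    rw [← Finset.sum_range_reflect]
    apply Finset.sum_congr rfl
    intro i hi
    rw [Finset.mem_range] at hi
    congr 1
    omega
  have hterm : ∀ i ∈ range I, T (i + 1) + T (2 * I + 1 - (i + 1)) =
      3 * XS χ (qst m B c (i + 1)) + 3 * XS χ (qst m B c (i + 2)) -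
        2 * (c (i + 1) : ZMod N) * YS χ (qst m B c (i + 1)) := by
    intro i hi
    rw [Finset.mem_range] at hi
    obtain ⟨p1, p2, p3⟩ := qst_palin h hper (k := i + 1) (j := 2 * I + 1 - (i + 1)) (by omega) hodd
    simp only [hT]
    rw [p1, p2, p3]
    ring
  change ∑ k ∈ range (2 * I + 1), T k = _
  rw [hsum, Finset.sum_congr rfl hterm]
  unfold V
  rw [← e0, ← e1, W_wd]
  have e2 : T 0 = 3 * XS χ (qst m B c 1) - (B : ZMod N) * YS χ (qst m B c 0) := by
    simp only [hT]
    rw [hc0, e0, e1, XS_swap hodd]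
  rw [e2]
  have tel : XS χ (qst m B c 1) + ∑ i ∈ range I, XS χ (qst m B c (i + 2)) =
      ∑ i ∈ range I, XS χ (qst m B c (i + 1)) + XS χ (qst m B c (I + 1)) := by
    rw [← Finset.sum_range_succ, Finset.sum_range_succ', add_comm]
  have h1 : ∀ i, 1 + i = i + 1 := fun i => add_comm 1 i
  simp only [h1]
  have s1 : ∑ i ∈ range I, (3 * XS χ (qst m B c (i + 1)) + 3 * XS χ (qst m B c (i + 2)) -
        2 * (c (i + 1) : ZMod N) * YS χ (qst m B c (i + 1))) =
      3 * ∑ i ∈ range I, XS χ (qst m B c (i + 1)) + 3 * ∑ i ∈ range I, XS χ (qst m B c (i + 2)) -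
        ∑ i ∈ range I, 2 * (c (i + 1) : ZMod N) * YS χ (qst m B c (i + 1)) := by
    rw [Finset.sum_sub_distrib, Finset.sum_add_distrib, Finset.mul_sum, Finset.mul_sum]
  have s2 : ∑ i ∈ range I, (6 * XS χ (qst m B c (i + 1)) -
        2 * (c (i + 1) : ZMod N) * YS χ (qst m B c (i + 1))) =
      6 * ∑ i ∈ range I, XS χ (qst m B c (i + 1)) -
        ∑ i ∈ range I, 2 * (c (i + 1) : ZMod N) * YS χ (qst m B c (i + 1)) := by
    rw [Finset.sum_sub_distrib, Finset.mul_sum]
  rw [s1, s2]
  linear_combination (3 : ZMod N) * tel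

/-- **the relation of an odd cycle as a half sum** -/
theorem V_eq_zero (h : Data m B s x c) (hm : 0 < m) (hm2 : m % 2 = 1) (hB2 : B % 2 = 1) {I : ℕ}
    (hL : minimalPeriod gsh (x 1) = 2 * I + 1)
    [IsDomain (QuadraticAlgebra ℤ m B)] [UniqueFactorizationMonoid (QuadraticAlgebra ℤ m B)]
    {d : ℕ} (hd : (d : ℤ) = B ^ 2 + 4 * m) (h8 : d % 8 = 5)
    {q N : ℕ} [NeZero q] (hcop : Nat.Coprime q d) (hN2 : N % 2 = 1) (hNd : Nat.Coprime d N)
    (χ : ZMod q → ZMod N) (hodd : ∀ x, χ (-x) = - χ x) (hmul : ∀ x y, χ (x * y) = χ x * χ y)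
    (hsum : (∑ u ∈ range q, (u : ZMod N) * χ (u : ZMod q)) * (q : ZMod N) = 0) :
    V χ B m (wd c 1 I) = 0 := by
  have key := odd_T5N m B hm hm2 hB2 (oddCyc h hm hL) hd h8 q N
    (Nat.pos_of_ne_zero (NeZero.ne q)) hcop hN2 hNd χ hodd hmul (by
      intro z
      linear_combination (3 * z) * hsum)
  simp only [KF.range_term] at key
  rw [← fold h hL hodd]
  exact key

end Pool.Agent.LibH4.LO
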