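import Pool.Agent.Lib_helper4.LO.Moves
import Pool.Agent.Lib_helper4.P7Sys

/-!
Odd periods of any length: parameters of period seven with the same relations.
-/

namespace Pool.Agent.LibH4.LO

open Finset Function Pool.Agent.Lib_helper5 Pool.Agent.Lib_helper5.LK Pool.Agent.LibH4
  Pool.Agent.LibH4.KF Pool.Agent.LibH4.S7

section

variable {q N : ℕ} [NeZero q] {χ : ZMod q → ZMod N}

/-- change of the parameters `B, m` in the same class -/
lemma RC.V_congr {M : ℕ} {D : ℤ} {l : ℕ} (h : RC M D l χ) {B m B' m' : ℤ}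
    (hD : (M : ℤ) ∣ B ^ 2 + 4 * m - D) (hB : (M : ℤ) ∣ B - B') (hm : (M : ℤ) ∣ m - m')
    (L : List ℤ) : V χ B m L = V χ B' m' L := by
  have h1 : Cg M ((m, B, 1) : ℤ × ℤ × ℤ) (m', B', 1) := ⟨hm, hB, by simp⟩
  have h2 : Cg M ((1, B, m) : ℤ × ℤ × ℤ) (1, B', m') := ⟨by simp, hB, hm⟩
  have h3 : (M : ℤ) ∣ dis (m, B, 1) - D := by
    have e : dis (m, B, 1) = B ^ 2 + 4 * m := by unfold dis; ring
    rw [e]
    exact hD
  unfold V
  rw [← YS_congr h.qM h1, ← W_congr h.qM L h2]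
  linear_combination (-1 : ZMod N) * h.coef h3 hB

/-- the half sum of three quotients -/
lemma rel_of_V {x y z B m : ℤ} (hc : Cl x y z B m) (h : V χ B m [x, y, z] = 0) :
    LK.Rel N χ (J7 x y z B m) := by
  have e1 : st x ((1, B, m) : ℤ × ℤ × ℤ) = (m, r2 x B m, y2 x B m) := by
    unfold st r2 y2
    simp only
    congr 2
    · ring
    · ring
  have e2 : st y ((m, r2 x B m, y2 x B m) : ℤ × ℤ × ℤ) = (y2 x B m, r3 x y B m, y3 x y B m) := by
    unfold st r3 y3
    simp only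
    congr 2
    · ring
    · ring
  have e3 : st z ((y2 x B m, r3 x y B m, y3 x y B m) : ℤ × ℤ × ℤ) =
      (y3 x y B m, r4 x y z B m, y3 x y B m) := by
    unfold Cl at hc
    unfold st r4
    simp only
    congr 2
    · ring
    · linear_combination -hc
  have e : V χ B m [x, y, z] = -(B : ZMod N) * YS χ (m, B, 1) +
      (6 * XS χ (1, B, m) - 2 * x * YS χ (1, B, m) +
      (6 * XS χ (m, r2 x B m, y2 x B m) - 2 * y * YS χ (m, r2 x B m, y2 x B m) +
      (6 * XS χ (y2 x B m, r3 x y B m, y3 x y B m) -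
        2 * z * YS χ (y2 x B m, r3 x y B m, y3 x y B m) +
      3 * XS χ (y3 x y B m, r4 x y z B m, y3 x y B m)))) := by
    unfold V W
    rw [e1]
    unfold W
    rw [e2]
    unfold W
    rw [e3]
    rfl
  rw [e] at h
  unfold XS YS at h
  unfold LK.Rel J7
  simp only [List.map_cons, List.map_nil, List.sum_cons, List.sum_nil, add_zero]
  simp only at h
  push_cast at h ⊢
  linear_combination h

end

/-- parameters in the same class for which the closing condition holds exactly -/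
lemma exists_exact (M : ℕ) (x y z B m : ℤ) (h : Clo M (en (1, B, m) [x, y, z])) :
    ∃ B' m' : ℤ, Cl x y z B' m' ∧ (M : ℤ) ∣ B - B' ∧ (M : ℤ) ∣ m - m' := by
  have e1 : en ((1, B, m) : ℤ × ℤ × ℤ) [x, y, z] =
      (y3 x y B m, 2 * z * y3 x y B m - r3 x y B m, y2 x B m + r3 x y B m * z -
        y3 x y B m * z ^ 2) := by
    have e1 : st x ((1, B, m) : ℤ × ℤ × ℤ) = (m, r2 x B m, y2 x B m) := by
      unfold st r2 y2
      simp only
      congr 2
      · ring
      · ring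
    have e2 : st y ((m, r2 x B m, y2 x B m) : ℤ × ℤ × ℤ) =
        (y2 x B m, r3 x y B m, y3 x y B m) := by
      unfold st r3 y3
      simp only
      congr 2
      · ring
      · ring
    change st z (st y (st x (1, B, m))) = _
    rw [e1, e2]
    rfl
  rw [e1] at h
  obtain ⟨s, hs⟩ := h
  simp only at hs
  set u0 : ℤ := 1 + x * y
  set u1 : ℤ := x * y * z + x + z
  set w0 : ℤ := y
  set w1 : ℤ := y * z + 1
  refine ⟨B - M * s * (u1 * w1 + u0 * w0), m - M * s * (w1 ^ 2 + w0 ^ 2), ?_,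
    ⟨s * (u1 * w1 + u0 * w0), by ring⟩, ⟨s * (w1 ^ 2 + w0 ^ 2), by ring⟩⟩
  unfold Cl y3 r3 y2 r2
  unfold y3 r3 y2 r2 at hs
  simp only [u0, u1, w0, w1]
  linear_combination hs

theorem exists_lift (M : ℕ) (B m : ℤ) {L L' : List ℤ}
    (hL : Relation.ReflTransGen (Move M) L L') (hlen : L'.length ≤ 3)
    (hc : Clo M (en (1, B, m) L)) :
    ∃ (x y z B' m' : ℤ), Cl x y z B' m' ∧ (M : ℤ) ∣ B' ^ 2 + 4 * m' - (B ^ 2 + 4 * m) ∧
      ((2 : ℤ) ∣ M → (2 : ℤ) ∣ B' - B) ∧
      ∀ (q N : ℕ) [NeZero q] (l : ℕ) (χ : ZMod q → ZMod N), RC M (B ^ 2 + 4 * m) l χ →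
        V χ B m L = 0 → LK.Rel N χ (J7 x y z B' m') := by
  obtain ⟨x, y, z, B1, m1, h1, h2, h3, h4⟩ := exists_three M B m hL hlen hc
  obtain ⟨B', m', h5, h6, h7⟩ := exists_exact M x y z B1 m1 h2
  refine ⟨x, y, z, B', m', h5, ?_, ?_, ?_⟩
  · obtain ⟨e, he⟩ := h6
    obtain ⟨g, hg⟩ := h7
    rw [← h1]
    refine ⟨-(e * (B1 + B')) - 4 * g, ?_⟩
    linear_combination (-(B1 + B')) * he - 4 * hg
  · intro hM
    have : (2 : ℤ) ∣ B1 - B' := hM.trans h6
    have e : B' - B = (B1 - B) - (B1 - B') := by ring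
    rw [e]
    exact dvd_sub h3 this
  · intro q N _ l χ hχ hV
    apply rel_of_V h5
    rw [← hχ.V_congr (B := B1) (m := m1) (by rw [h1, sub_self]; exact dvd_zero _) h6 h7,
      ← h4 q N l χ hχ]
    exact hV

end Pool.Agent.LibH4.LO
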