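import Pool.Agent.Lib_helper4.Inert

/-!
Odd periods of any length: powers of an element of prime norm are primitive.
-/

namespace Pool.Agent.LibH4.LO

open Pool.Agent.LibH4

variable {m B : ℤ}

/-- if `p` divides the square of an element and is unramified, it divides the element -/
lemma dvd_of_sq {p : ℕ} (hp : p.Prime) (hD : ¬ (p : ℤ) ∣ B ^ 2 + 4 * m)
    (γ : QuadraticAlgebra ℤ m B) (h1 : (p : ℤ) ∣ (γ * γ).re) (h2 : (p : ℤ) ∣ (γ * γ).im) :
    (p : ℤ) ∣ γ.re ∧ (p : ℤ) ∣ γ.im := by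
  have hpz : Prime (p : ℤ) := Nat.prime_iff_prime_int.1 hp
  rw [QuadraticAlgebra.re_mul] at h1
  rw [QuadraticAlgebra.im_mul] at h2
  have h2' : (p : ℤ) ∣ γ.im * (2 * γ.re + B * γ.im) := by
    have e : γ.im * (2 * γ.re + B * γ.im) = γ.re * γ.im + γ.im * γ.re + B * γ.im * γ.im := by
      ring
    rw [e]
    exact h2
  have key : (p : ℤ) ∣ γ.im := by
    rcases hpz.dvd_or_dvd h2' with h | h
    · exact h
    · have h3 : (p : ℤ) ∣ (B ^ 2 + 4 * m) * γ.im ^ 2 := by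
        have e : (B ^ 2 + 4 * m) * γ.im ^ 2 = 4 * (γ.re * γ.re + m * γ.im * γ.im) -
            (2 * γ.re + B * γ.im) * (2 * γ.re - B * γ.im) := by ring
        rw [e]
        exact dvd_sub (Dvd.dvd.mul_left h1 4) (Dvd.dvd.mul_right h _)
      rcases hpz.dvd_or_dvd h3 with h4 | h4
      · exact absurd h4 hD
      · exact hpz.dvd_of_dvd_pow h4
  refine ⟨?_, key⟩
  have h4 : (p : ℤ) ∣ γ.re ^ 2 := by
    have e : γ.re ^ 2 = (γ.re * γ.re + m * γ.im * γ.im) - m * γ.im * γ.im := by ring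
    rw [e]
    exact dvd_sub h1 (Dvd.dvd.mul_left key _)
  exact hpz.dvd_of_dvd_pow h4

lemma natAbs_norm_dvd {p : ℕ} {γ : QuadraticAlgebra ℤ m B} (h1 : (p : ℤ) ∣ γ.re)
    (h2 : (p : ℤ) ∣ γ.im) : p ^ 2 ∣ γ.norm.natAbs := by
  obtain ⟨a, ha⟩ := h1
  obtain ⟨b, hb⟩ := h2
  rw [← Int.natCast_dvd_natCast]
  rw [Int.dvd_natAbs, QuadraticAlgebra.norm_def, ha, hb]
  exact ⟨a * a + B * a * b - m * b * b, by push_cast; ring⟩

/-- powers are primitive -/
lemma pow_prim {p : ℕ} (hp : p.Prime) (hD : ¬ (p : ℤ) ∣ B ^ 2 + 4 * m)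
    {π : QuadraticAlgebra ℤ m B} (hπ : π.norm.natAbs = p) (n : ℕ) :
    ¬ ((p : ℤ) ∣ (π ^ n).re ∧ (p : ℤ) ∣ (π ^ n).im) := by
  induction n using Nat.strong_induction_on with
  | _ n ih =>
    rintro ⟨h1, h2⟩
    rcases Nat.lt_or_ge n 2 with hn | hn
    · have h3 := natAbs_norm_dvd h1 h2
      rw [map_pow, Int.natAbs_pow, hπ] at h3
      have h4 := (Nat.pow_dvd_pow_iff_le_right hp.one_lt).1 h3
      omega
    · obtain ⟨k, rfl⟩ : ∃ k, n = k + 2 := ⟨n - 2, by omega⟩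
      apply ih (k + 1) (by omega)
      apply dvd_of_sq hp hD
      · have e : π ^ (k + 1) * π ^ (k + 1) = π ^ (k + 2) * π ^ k := by ring
        rw [e, QuadraticAlgebra.re_mul]
        exact dvd_add (Dvd.dvd.mul_right h1 _) (Dvd.dvd.mul_right (Dvd.dvd.mul_left h2 _) _)
      · have e : π ^ (k + 1) * π ^ (k + 1) = π ^ (k + 2) * π ^ k := by ring
        rw [e, QuadraticAlgebra.im_mul]
        exact dvd_add (dvd_add (Dvd.dvd.mul_right h1 _) (Dvd.dvd.mul_right h2 _))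
          (Dvd.dvd.mul_right (Dvd.dvd.mul_left h2 _) _)

/-- the coordinates of the powers are coprime -/
theorem pow_coprime {p : ℕ} (hp : p.Prime) (hD : ¬ (p : ℤ) ∣ B ^ 2 + 4 * m)
    {π : QuadraticAlgebra ℤ m B} (hπ : π.norm.natAbs = p) (n : ℕ) :
    IsCoprime (π ^ n).re (π ^ n).im := by
  rw [Int.isCoprime_iff_gcd_eq_one]
  by_contra hg
  obtain ⟨r, hr, hrd⟩ := Nat.exists_prime_and_dvd hg
  have h1 : (r : ℤ) ∣ (π ^ n).re := (Int.natCast_dvd_natCast.2 hrd).trans (Int.gcd_dvd_left ..)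
  have h2 : (r : ℤ) ∣ (π ^ n).im := (Int.natCast_dvd_natCast.2 hrd).trans (Int.gcd_dvd_right ..)
  have h3 := natAbs_norm_dvd h1 h2
  rw [map_pow, Int.natAbs_pow, hπ] at h3
  have h4 : r ∣ p := hr.dvd_of_dvd_pow ((dvd_pow_self r two_ne_zero).trans h3)
  have h5 : r = p := (Nat.prime_dvd_prime_iff_eq hr hp).1 h4
  subst h5
  exact pow_prim hp hD hπ n ⟨h1, h2⟩

/-- for the first power no condition is needed -/
theorem one_coprime {p : ℕ} (hp : p.Prime) {π : QuadraticAlgebra ℤ m B}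
    (hπ : π.norm.natAbs = p) : IsCoprime π.re π.im := by
  rw [Int.isCoprime_iff_gcd_eq_one]
  by_contra hg
  obtain ⟨r, hr, hrd⟩ := Nat.exists_prime_and_dvd hg
  have h1 : (r : ℤ) ∣ π.re := (Int.natCast_dvd_natCast.2 hrd).trans (Int.gcd_dvd_left ..)
  have h2 : (r : ℤ) ∣ π.im := (Int.natCast_dvd_natCast.2 hrd).trans (Int.gcd_dvd_right ..)
  have h3 := natAbs_norm_dvd h1 h2
  rw [hπ] at h3
  have h4 : r ∣ p := (dvd_pow_self r two_ne_zero).trans h3
  have h5 : r = p := (Nat.prime_dvd_prime_iff_eq hr hp).1 h4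
  subst h5
  have := Nat.le_of_dvd hr.pos h3
  have := hr.two_le
  nlinarith

end Pool.Agent.LibH4.LO
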