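import Pool.Agent.Lib_helper4.LO.Norm
import Pool.Agent.Lib_helper4.LO.Pow

/-!
Odd periods of any length: the primes up to nineteen are inert when at most three quotients of the
first half of the period are not divisible by `M`.
-/

namespace Pool.Agent.LibH4.LO

open Function Pool.Agent.Lib_helper5 Pool.Agent.LibH4 Pool.Agent.LibH4.CFO

variable {m B : ℤ} {s : ℝ} {x : ℕ → ℝ} {c : ℕ → ℕ}

lemma per_of {L : ℕ} (h : Data m B s x c) (hL : minimalPeriod gsh (x 1) = L) (k : ℕ) :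
    x (k + L) = x k := by
  apply x_per h
  have := isPeriodicPt_minimalPeriod gsh (x 1)
  rw [hL] at this
  exact this

lemma per_mul {L : ℕ} (h : Data m B s x c) (hL : minimalPeriod gsh (x 1) = L) (k t : ℕ) :
    x (k + t * L) = x k := by
  induction t with
  | zero => rw [zero_mul, add_zero]
  | succ t ih => rw [Nat.succ_mul, ← add_assoc, per_of h hL, ih]

/-- a coefficient different from one occurs in the first half -/
lemma half_index (h : Data m B s x c) {I : ℕ} (hL : minimalPeriod gsh (x 1) = 2 * I + 1) {j : ℕ}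
    (hj : QS m B c j ≠ 1) : ∃ i, 1 ≤ i ∧ i ≤ I ∧ QS m B c i = QS m B c j := by
  have hper := per_of h hL
  have e1 : QS m B c j = QS m B c (j % (2 * I + 1)) := by
    have h1 := per_mul h hL (j % (2 * I + 1)) (j / (2 * I + 1))
    rw [Nat.mod_add_div'] at h1
    exact (state_eq h h1).2.2
  set j0 := j % (2 * I + 1) with hj0
  have hlt : j0 < 2 * I + 1 := Nat.mod_lt _ (by omega)
  have hne : j0 ≠ 0 := by
    intro h0
    rw [e1, h0] at hj
    exact hj rfl
  by_cases hI : j0 ≤ I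
  · exact ⟨j0, by omega, hI, e1.symm⟩
  · obtain ⟨p1, -, -, -⟩ := palin h hper (2 * I + 1 - j0) j0 (by omega)
    exact ⟨2 * I + 1 - j0, by omega, by omega, by rw [e1, p1]⟩

/-- ramified primes do not occur -/
lemma ram (h : Data m B s x c) {I : ℕ} (hL : minimalPeriod gsh (x 1) = 2 * I + 1) {p : ℕ}
    (hp : p.Prime) (hD : (p : ℤ) ∣ B ^ 2 + 4 * m) {j : ℕ} (hj1 : 1 ≤ j) (hj2 : j ≤ I)
    (hS : QS m B c j = p) : False := by
  have hper := per_of h hL
  have ij := inv_of h j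
  have hpz : Prime (p : ℤ) := Nat.prime_iff_prime_int.1 hp
  have hR : (p : ℤ) ∣ QR m B c j := by
    have h1 : (p : ℤ) ∣ QR m B c j ^ 2 := by
      have e : QR m B c j ^ 2 = (B ^ 2 + 4 * m) - 4 * QP m B c j * QS m B c j := by
        rw [← ij.disc]; ring
      rw [e, hS]
      exact dvd_sub hD (Dvd.intro_left _ rfl)
    exact hpz.dvd_of_dvd_pow h1
  obtain ⟨r, hr⟩ := hR
  obtain ⟨p1, p2, p3, p4⟩ := palin h hper j (2 * I + 1 - j) (by omega)
  have ij' := inv_of h (2 * I + 1 - j)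
  have hsR' := ij'.sR
  rw [p1] at hsR'
  have ht := int_eq_of (S := QS m B c j) (a := QR m B c (2 * I + 1 - j)) (b := QR m B c j)
    ((c j : ℤ) - r) (by rw [p2, QR_succ, hr, hS]; ring) ij'.Rs hsR' ij.Rs ij.sR
  have hRR : QR m B c (2 * I + 1 - j) = QR m B c j := by
    rw [p2, QR_succ, hr, hS]
    have : (c j : ℤ) = r := by linarith
    rw [this]; ring
  have hx : x (2 * I + 1 - j) = x j := x_eq_of_state h hRR p1
  -- the period divides the difference
  obtain ⟨t, ht1, ht2, ht3⟩ : ∃ t, 0 < t ∧ t < 2 * I + 1 ∧ 2 * I + 1 - j = j + t :=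
    ⟨2 * I + 1 - j - j, by omega, by omega, by omega⟩
  rw [ht3] at hx
  have hfw : ∀ k, x (j + k + t) = x (j + k) := by
    intro k
    induction k with
    | zero => exact hx
    | succ k ih =>
      rw [show j + (k + 1) + t = (j + k + t) + 1 by ring, h.step, ih, ← h.step]
      rfl
  have h1 : x (1 + t) = x 1 := by
    have e1 := per_mul h hL (1 + t) j
    have e2 := per_mul h hL 1 j
    obtain ⟨w, hw⟩ : ∃ w, 1 + j * (2 * I + 1) = j + w := by
      refine ⟨1 + j * (2 * I + 1) - j, ?_⟩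
      have : j ≤ j * (2 * I + 1) := Nat.le_mul_of_pos_right _ (by omega)
      omega
    rw [← e1, ← e2, show 1 + t + j * (2 * I + 1) = (1 + j * (2 * I + 1)) + t by ring, hw, hfw]
  have h2 : gsh^[t] (x 1) = x 1 := by rw [iter h]; exact h1
  have := IsPeriodicPt.minimalPeriod_le ht1 h2
  omega

lemma cS_lt (h : Data m B s x c) (k : ℕ) : (c k : ℝ) * QS m B c k < s := by
  have ik := inv_of h k
  have h1 : (c k : ℝ) ≤ x k := by
    have := Int.floor_le (x k)
    rw [← h.fl k] at this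
    exact_mod_cast this
  have hS : (0 : ℝ) < QS m B c k := by exact_mod_cast ik.Spos
  rw [ik.xe, le_div_iff₀ (by positivity)] at h1
  have := ik.Rs
  linarith

/-- **small primes are inert** -/
theorem inert (h : Data m B s x c) (hm : 0 < m) (hB : 1 ≤ B) {I : ℕ}
    (hL : minimalPeriod gsh (x 1) = 2 * I + 1)
    [IsDomain (QuadraticAlgebra ℤ m B)] [UniqueFactorizationMonoid (QuadraticAlgebra ℤ m B)]
    {r : ℕ} (hDr : 4 * 19 ^ (2 * r + 2) < B ^ 2 + 4 * m)
    (hnz : ((Finset.Ico 1 (1 + I)).filter fun i => c i < 2 * 19 ^ (r + 1)).card ≤ r)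
    {p : ℕ} (hp : p.Prime) (hp19 : p ≤ 19) (X : ℤ) : ¬ (p : ℤ) ∣ X ^ 2 + B * X - m := by
  intro hX
  have hBR : (1 : ℝ) ≤ B := by exact_mod_cast hB
  have hs : 0 < s := by linarith [h.Bs]
  have hsq : s ^ 2 = ((B ^ 2 + 4 * m : ℤ) : ℝ) := h.sq
  set D : ℤ := B ^ 2 + 4 * m with hD
  have hlt : ∀ z : ℤ, 0 ≤ z → (z : ℝ) < s → z ^ 2 < D := by
    intro z hz hzs
    have h1 : (z : ℝ) ^ 2 < s ^ 2 := pow_lt_pow_left₀ hzs (by exact_mod_cast hz) (by norm_num)
    rw [hsq] at h1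
    exact_mod_cast h1
  have hp1 : (1 : ℤ) < p := by exact_mod_cast hp.one_lt
  have hp0 : (0 : ℤ) < p := by omega
  have hp19z : (p : ℤ) ≤ 19 := by exact_mod_cast hp19
  have hpr : ∀ e : ℕ, e ≤ r → 4 * ((p : ℤ) ^ (e + 1)) ^ 2 < D := by
    intro e he
    have h1 : (p : ℤ) ^ (e + 1) ≤ 19 ^ (e + 1) := pow_le_pow_left₀ (by omega) hp19z _
    have h2 : (19 : ℤ) ^ (e + 1) ≤ 19 ^ (r + 1) := pow_le_pow_right₀ (by norm_num) (by omega)
    have h3 : ((p : ℤ) ^ (e + 1)) ^ 2 ≤ (19 ^ (r + 1)) ^ 2 :=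
      pow_le_pow_left₀ (by positivity) (h1.trans h2) 2
    have h4 : ((19 : ℤ) ^ (r + 1)) ^ 2 = 19 ^ (2 * r + 2) := by rw [← pow_mul]; congr 1; ring
    linarith
  obtain ⟨π, hπ⟩ := exists_norm_of_root hp hX
  have hnorm : ∀ γ : QuadraticAlgebra ℤ m B,
      γ.re ^ 2 + B * γ.re * γ.im - m * γ.im ^ 2 = γ.norm := by
    intro γ
    rw [QuadraticAlgebra.norm_def]; ring
  -- the prime is unramified
  have hram : ¬ (p : ℤ) ∣ D := by
    intro hpD
    have hn : 4 * (π.re ^ 2 + B * π.re * π.im - m * π.im ^ 2) ^ 2 < B ^ 2 + 4 * m := by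
      rw [hnorm, ← Int.natAbs_sq, hπ, ← hD]
      have := hpr 0 (Nat.zero_le _)
      rwa [zero_add, pow_one] at this
    obtain ⟨j, hj⟩ := small_norm h hm hB (one_coprime hp hπ) hn
    rw [hnorm, Int.abs_eq_natAbs, hπ] at hj
    obtain ⟨i, h1, h2, h3⟩ := half_index h hL (j := j) (by rw [hj]; exact_mod_cast hp.one_lt.ne')
    exact ram h hL hp hpD h1 h2 (by rw [h3, hj])
  -- powers
  have hpow : ∀ n : ℕ, 1 ≤ n → 4 * ((p : ℤ) ^ n) ^ 2 < D →
      ∃ i, 1 ≤ i ∧ i ≤ I ∧ QS m B c i = (p : ℤ) ^ n := by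
    intro n hn1 hn
    have hN : (π ^ n).norm.natAbs = p ^ n := by rw [map_pow, Int.natAbs_pow, hπ]
    have hn' : 4 * ((π ^ n).re ^ 2 + B * (π ^ n).re * (π ^ n).im - m * (π ^ n).im ^ 2) ^ 2 <
        B ^ 2 + 4 * m := by
      rw [hnorm, ← Int.natAbs_sq, hN, ← hD]
      push_cast
      exact hn
    obtain ⟨j, hj⟩ := small_norm h hm hB (pow_coprime hp hram hπ n) hn'
    rw [hnorm, Int.abs_eq_natAbs, hN] at hj
    push_cast at hj
    obtain ⟨i, h1, h2, h3⟩ := half_index h hL (j := j) (by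
      rw [hj]
      have : 1 < (p : ℤ) ^ n := one_lt_pow₀ hp1 (by omega)
      exact this.ne')
    exact ⟨i, h1, h2, by rw [h3, hj]⟩
  -- the largest exponent
  obtain ⟨n, hn1, hn2⟩ : ∃ n : ℕ, 4 * ((p : ℤ) ^ n) ^ 2 < D ∧ D ≤ 4 * ((p : ℤ) ^ (n + 1)) ^ 2 := by
    have hex : ∃ n : ℕ, D ≤ 4 * ((p : ℤ) ^ n) ^ 2 := by
      refine ⟨D.toNat, ?_⟩
      have h1 : D ≤ D.toNat := Int.self_le_toNat D
      have h2 : (D.toNat : ℤ) < (p : ℤ) ^ D.toNat := by
        exact_mod_cast Nat.lt_pow_self hp.one_lt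
      have h3 : 0 ≤ (D.toNat : ℤ) := by positivity
      nlinarith
    classical
    have h1 := Nat.find_spec hex
    have h0 : Nat.find hex ≠ 0 := by
      intro h0
      rw [h0, pow_zero] at h1
      have h2 := hpr 0 (Nat.zero_le _)
      rw [zero_add, pow_one] at h2
      nlinarith
    obtain ⟨n, hn⟩ := Nat.exists_eq_succ_of_ne_zero h0
    refine ⟨n, ?_, ?_⟩
    · have := Nat.find_min hex (m := n) (by omega)
      push Not at this
      exact this
    · rw [hn] at h1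
      exact h1
  have hnr : r + 1 ≤ n := by
    by_contra hcon
    have h1 := hpr n (by omega)
    linarith
  -- the quotients
  have hq : ∀ e ∈ Finset.range (r + 1),
      ∃ i, i ∈ (Finset.Ico 1 (1 + I)).filter (fun i => c i < 2 * 19 ^ (r + 1)) ∧
      QS m B c i = (p : ℤ) ^ (n - e) := by
    intro e he
    rw [Finset.mem_range] at he
    have hle : (p : ℤ) ^ (n - e) ≤ p ^ n := pow_le_pow_right₀ (by omega) (by omega)
    have hpos : 0 < (p : ℤ) ^ (n - e) := by positivity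
    obtain ⟨i, h1, h2, h3⟩ := hpow (n - e) (by omega) (by
      have := pow_le_pow_left₀ hpos.le hle 2
      linarith)
    refine ⟨i, ?_, h3⟩
    rw [Finset.mem_filter, Finset.mem_Ico]
    refine ⟨⟨h1, by omega⟩, ?_⟩
    have h4 := cS_lt h i
    have h5 : ((c i * p ^ (n - e) : ℤ) : ℝ) < s := by
      rw [h3] at h4
      push_cast at h4 ⊢
      exact h4
    have h6 := hlt _ (by positivity) h5
    have h7 : (c i * p ^ (n - e) : ℤ) < 2 * p ^ (n + 1) := by
      have h8 : (c i * p ^ (n - e) : ℤ) ^ 2 < (2 * (p : ℤ) ^ (n + 1)) ^ 2 := by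
        rw [mul_pow 2]
        linarith
      exact lt_of_pow_lt_pow_left₀ 2 (by positivity) h8
    have h8 : (p : ℤ) ^ (n + 1) = p ^ (e + 1) * p ^ (n - e) := by
      rw [← pow_add]
      congr 1
      omega
    rw [h8, ← mul_assoc] at h7
    have h9 : (c i : ℤ) < 2 * p ^ (e + 1) := lt_of_mul_lt_mul_right h7 hpos.le
    have h10 : (p : ℤ) ^ (e + 1) ≤ 19 ^ (r + 1) :=
      (pow_le_pow_left₀ (by omega) hp19z _).trans (pow_le_pow_right₀ (by norm_num) (by omega))
    have h11 : (c i : ℤ) < 2 * 19 ^ (r + 1) := by linarith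
    exact_mod_cast h11
  choose! f hf1 hf2 using hq
  have hcard : (Finset.range (r + 1)).card ≤
      ((Finset.Ico 1 (1 + I)).filter fun i => c i < 2 * 19 ^ (r + 1)).card := by
    apply Finset.card_le_card_of_injOn f (fun e he => hf1 e he)
    intro e he e' he' hee
    have he1 := Finset.mem_range.1 (Finset.mem_coe.1 he)
    have he2 := Finset.mem_range.1 (Finset.mem_coe.1 he')
    have h1 := hf2 e (Finset.mem_coe.1 he)
    rw [hee, hf2 e' (Finset.mem_coe.1 he')] at h1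
    have h2 : n - e' = n - e := pow_right_injective₀ hp0 hp1.ne' h1
    omega
  rw [Finset.card_range] at hcard
  omega

end Pool.Agent.LibH4.LO
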