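import Pool.Agent.Lib_helper5.P5Rel

/-!
The three term relation of the sums attached to a form.
-/

namespace Pool.Agent.LibH4.LO

open Finset Pool.Agent.Lib_helper5 Pool.Agent.LibH4 Pool.Agent.LibH4.KF Pool.Agent.LibH4.T6

variable {q N : ℕ} [NeZero q]

/-- values of three residues with sum zero -/
lemma val_cases (u v : ZMod q) (h : ¬ (u = 0 ∧ v = 0)) :
    (u.val = 0 ∧ v.val ≠ 0 ∧ (-(u + v)).val ≠ 0 ∧ v.val + (-(u + v)).val = q) ∨
    (v.val = 0 ∧ u.val ≠ 0 ∧ (-(u + v)).val ≠ 0 ∧ u.val + (-(u + v)).val = q) ∨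
    (u.val ≠ 0 ∧ v.val ≠ 0 ∧ (-(u + v)).val = 0 ∧ u.val + v.val = q) ∨
    (u.val ≠ 0 ∧ v.val ≠ 0 ∧ (-(u + v)).val ≠ 0 ∧
      (u.val + v.val + (-(u + v)).val = q ∨ u.val + v.val + (-(u + v)).val = 2 * q)) := by
  have hu := ZMod.val_lt u
  have hv := ZMod.val_lt v
  have hw := ZMod.val_lt (-(u + v))
  have hs : (u.val + v.val + (-(u + v)).val) % q = 0 := by
    have h1 : ((u.val + v.val + (-(u + v)).val : ℕ) : ZMod q) = 0 := by
      push_cast
      rw [ZMod.natCast_zmod_val, ZMod.natCast_zmod_val, ZMod.natCast_zmod_val]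
      ring
    rw [ZMod.natCast_eq_zero_iff] at h1
    exact Nat.mod_eq_zero_of_dvd h1
  obtain ⟨k, hk⟩ := Nat.dvd_of_mod_eq_zero hs
  have hk3 : k < 3 := by
    by_contra hcon
    have : q * 3 ≤ q * k := Nat.mul_le_mul_left q (by omega)
    omega
  have hq : 0 < q := Nat.pos_of_ne_zero (NeZero.ne q)
  have h0 : u.val = 0 → v.val = 0 → False := fun h1 h2 =>
    h ⟨(ZMod.val_eq_zero u).1 h1, (ZMod.val_eq_zero v).1 h2⟩
  have hk12 : k = 0 ∨ k = 1 ∨ k = 2 := by omega
  rcases hk12 with rfl | rfl | rfl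
  · exact (h0 (by omega) (by omega)).elim
  · rw [mul_one] at hk
    by_cases hu0 : u.val = 0
    · by_cases hv0 : v.val = 0
      · exact (h0 hu0 hv0).elim
      · exact Or.inl ⟨hu0, hv0, by omega, by omega⟩
    · by_cases hv0 : v.val = 0
      · exact Or.inr (Or.inl ⟨hv0, hu0, by omega, by omega⟩)
      · by_cases hw0 : (-(u + v)).val = 0
        · exact Or.inr (Or.inr (Or.inl ⟨hu0, hv0, hw0, by omega⟩))
        · exact Or.inr (Or.inr (Or.inr ⟨hu0, hv0, hw0, Or.inl (by omega)⟩))
  · exact Or.inr (Or.inr (Or.inr ⟨by omega, by omega, by omega, Or.inr (by omega)⟩))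

/-- the three term relation of the weights -/
lemma weights (u v : ZMod q) (h : ¬ (u = 0 ∧ v = 0)) :
    3 * (bz q N u * bz q N v + bz q N v * bz q N (-(u + v)) + bz q N (-(u + v)) * bz q N u) +
      (gz q N u + gz q N v + gz q N (-(u + v))) = 0 := by
  unfold bz gz bI b2I
  rcases val_cases u v h with ⟨h1, h2, h3, h4⟩ | ⟨h1, h2, h3, h4⟩ | ⟨h1, h2, h3, h4⟩ |
    ⟨h1, h2, h3, h4 | h4⟩
  · have e := congrArg (fun x : ℕ => (x : ZMod N)) h4
    simp only [Nat.cast_add] at e
    rw [h1, if_pos rfl, if_neg h2, if_neg h3, ← e]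
    push_cast
    ring
  · have e := congrArg (fun x : ℕ => (x : ZMod N)) h4
    simp only [Nat.cast_add] at e
    rw [h1, if_pos rfl, if_neg h2, if_neg h3, ← e]
    push_cast
    ring
  · have e := congrArg (fun x : ℕ => (x : ZMod N)) h4
    simp only [Nat.cast_add] at e
    rw [h3, if_pos rfl, if_neg h1, if_neg h2, ← e]
    push_cast
    ring
  · have e := congrArg (fun x : ℕ => (x : ZMod N)) h4
    simp only [Nat.cast_add] at e
    rw [if_neg h1, if_neg h2, if_neg h3, ← e]
    ring
  · have e := congrArg (fun x : ℕ => (x : ZMod N)) h4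
    simp only [Nat.cast_add, Nat.cast_mul, Nat.cast_ofNat] at e
    rw [if_neg h1, if_neg h2, if_neg h3]
    have ew : (((-(u + v)).val : ℕ) : ZMod N) = 2 * (q : ZMod N) - u.val - v.val := by
      linear_combination e
    rw [ew]
    ring

variable (χ : ZMod q → ZMod N)

lemma gz_neg (x : ZMod q) : gz q N (-x) = gz q N x := by
  unfold gz b2I
  by_cases hx : x = 0
  · subst hx; simp
  · have : NeZero x := ⟨hx⟩
    have hlt := ZMod.val_lt x
    rw [ZMod.val_neg_of_ne_zero x, Nat.cast_sub hlt.le]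
    ring

/-- the three term relation -/
theorem three_form (hχ0 : χ 0 = 0) (P R S : ℤ) :
    3 * (KF.XX χ P R S + KF.XX χ (P - R + S) (2 * P - R) P +
      KF.XX χ (P - R + S) (2 * S - R) S) +
      (KF.YX χ P R S + KF.YY χ P R S + KF.YY χ (P - R + S) (2 * P - R) P) = 0 := by
  -- the sums over `(u, v)` with the third variable `-(u + v)`
  have e2 : KF.XX χ (P - R + S) (2 * P - R) P =
      ∑ u, ∑ v, χ (fz q P R S u v) * (bz q N v * bz q N (-(u + v))) := by
    unfold KF.XX
    rw [Finset.sum_comm (f := fun u v => χ (fz q P R S u v) * (bz q N v * bz q N (-(u + v))))]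
    apply Finset.sum_congr rfl
    intro v _
    rw [← Equiv.sum_comp ((Equiv.addRight v).trans (Equiv.neg (ZMod q)))]
    apply Finset.sum_congr rfl
    intro u _
    have e : fz q (P - R + S) (2 * P - R) P v
        (((Equiv.addRight v).trans (Equiv.neg (ZMod q))) u) = fz q P R S u v := by
      unfold fz
      simp only [Equiv.trans_apply, Equiv.coe_addRight, Equiv.neg_apply]
      push_cast
      ring
    rw [e]
    rfl
  have e3 : KF.XX χ (P - R + S) (2 * S - R) S =
      ∑ u, ∑ v, χ (fz q P R S u v) * (bz q N (-(u + v)) * bz q N u) := by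
    unfold KF.XX
    apply Finset.sum_congr rfl
    intro u _
    rw [← Equiv.sum_comp ((Equiv.addLeft u).trans (Equiv.neg (ZMod q)))]
    apply Finset.sum_congr rfl
    intro v _
    have e : fz q (P - R + S) (2 * S - R) S u
        (((Equiv.addLeft u).trans (Equiv.neg (ZMod q))) v) = fz q P R S u v := by
      unfold fz
      simp only [Equiv.trans_apply, Equiv.coe_addLeft, Equiv.neg_apply]
      push_cast
      ring
    rw [e]
    simp only [Equiv.trans_apply, Equiv.coe_addLeft, Equiv.neg_apply]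
    ring
  have e4 : KF.YY χ (P - R + S) (2 * P - R) P =
      ∑ u, ∑ v, χ (fz q P R S u v) * gz q N (-(u + v)) := by
    unfold KF.YY
    rw [Finset.sum_comm (f := fun u v => χ (fz q P R S u v) * gz q N (-(u + v)))]
    apply Finset.sum_congr rfl
    intro v _
    rw [← Equiv.sum_comp ((Equiv.addRight v).trans (Equiv.neg (ZMod q)))]
    apply Finset.sum_congr rfl
    intro u _
    have e : fz q (P - R + S) (2 * P - R) P v
        (((Equiv.addRight v).trans (Equiv.neg (ZMod q))) u) = fz q P R S u v := by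
      unfold fz
      simp only [Equiv.trans_apply, Equiv.coe_addRight, Equiv.neg_apply]
      push_cast
      ring
    rw [e]
    rfl
  rw [e2, e3, e4]
  unfold KF.XX KF.YX KF.YY
  simp only [Finset.mul_sum, ← Finset.sum_add_distrib]
  apply Finset.sum_eq_zero
  intro u _
  apply Finset.sum_eq_zero
  intro v _
  by_cases h : u = 0 ∧ v = 0
  · obtain ⟨rfl, rfl⟩ := h
    have e : fz q P R S (0 : ZMod q) 0 = 0 := by unfold fz; ring
    rw [e, hχ0]
    ring
  · have hw := weights (N := N) u v h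
    linear_combination (χ (fz q P R S u v)) * hw

end Pool.Agent.LibH4.LO
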