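import Pool.Agent.Lib_helper4.LO.Half
import Pool.Agent.Lib_helper4.LO.Three

/-!
Odd periods of any length: the moves on words which keep the half sums.
-/

namespace Pool.Agent.LibH4.LO

open Finset Pool.Agent.Lib_helper5 Pool.Agent.LibH4 Pool.Agent.LibH4.KF

/-- the negative of a word -/
def ngl (L : List ℤ) : List ℤ := L.map fun x => -x

lemma ngl_ngl (L : List ℤ) : ngl (ngl L) = L := by
  unfold ngl
  rw [List.map_map]
  simp [Function.comp_def]

/-- sign of the outer coefficients -/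
def star (f : ℤ × ℤ × ℤ) : ℤ × ℤ × ℤ := (-f.1, f.2.1, -f.2.2)
/-- sign of the middle coefficient -/
def cj (f : ℤ × ℤ × ℤ) : ℤ × ℤ × ℤ := (f.1, -f.2.1, f.2.2)

lemma st_star (x : ℤ) (f : ℤ × ℤ × ℤ) : st (-x) (star f) = star (st x f) := by
  unfold st star
  simp only
  congr 2
  · ring
  · ring

lemma st_cj (x : ℤ) (f : ℤ × ℤ × ℤ) : st (-x) (cj f) = cj (st x f) := by
  unfold st cj
  simp only
  congr 2
  · ring
  · ring

lemma en_star (L : List ℤ) (f : ℤ × ℤ × ℤ) : en (star f) (ngl L) = star (en f L) := by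
  induction L generalizing f with
  | nil => rfl
  | cons x L ih =>
    change en (st (-x) (star f)) (ngl L) = star (en (st x f) L)
    rw [st_star, ih]

lemma en_cj (L : List ℤ) (f : ℤ × ℤ × ℤ) : en (cj f) (ngl L) = cj (en f L) := by
  induction L generalizing f with
  | nil => rfl
  | cons x L ih =>
    change en (st (-x) (cj f)) (ngl L) = cj (en (st x f) L)
    rw [st_cj, ih]

lemma Clo.star {M : ℕ} {f : ℤ × ℤ × ℤ} (h : Clo M f) : Clo M (LO.star f) := by
  unfold Clo LO.star at *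
  simp only
  rw [show -f.1 - -f.2.2 = -(f.1 - f.2.2) by ring]
  exact (dvd_neg).2 h

lemma star_star (f : ℤ × ℤ × ℤ) : star (star f) = f := by
  unfold star; simp

lemma cj_cj (f : ℤ × ℤ × ℤ) : cj (cj f) = f := by
  unfold cj; simp

section Sums

variable {q N : ℕ} [NeZero q] {χ : ZMod q → ZMod N}

lemma fz_negf (P R S : ℤ) (x y : ZMod q) : fz q (-P) (-R) (-S) x y = - fz q P R S x y := by
  unfold fz; push_cast; ring

lemma XX_negf (hodd : ∀ x, χ (-x) = - χ x) (P R S : ℤ) :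
    KF.XX χ (-P) (-R) (-S) = - KF.XX χ P R S := by
  unfold KF.XX
  simp only [fz_negf, hodd, neg_mul, Finset.sum_neg_distrib]

lemma YX_negf (hodd : ∀ x, χ (-x) = - χ x) (P R S : ℤ) :
    KF.YX χ (-P) (-R) (-S) = - KF.YX χ P R S := by
  unfold KF.YX
  simp only [fz_negf, hodd, neg_mul, Finset.sum_neg_distrib]

lemma XS_star (hodd : ∀ x, χ (-x) = - χ x) (f : ℤ × ℤ × ℤ) : XS χ (star f) = XS χ f := by
  unfold XS star
  simp only
  have h1 := XX_negf hodd f.1 (-f.2.1) (-f.2.2)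
  rw [neg_neg, K5.XX_neg] at h1
  rw [h1, neg_neg]

lemma YS_star (hodd : ∀ x, χ (-x) = - χ x) (f : ℤ × ℤ × ℤ) : YS χ (star f) = - YS χ f := by
  unfold YS star
  simp only
  have h1 := YX_negf hodd f.1 (-f.2.1) (-f.2.2)
  rw [neg_neg, K5.YX_neg] at h1
  exact h1

lemma XS_cj (f : ℤ × ℤ × ℤ) : XS χ (cj f) = - XS χ f := XS_neg _ _ _
lemma YS_cj (f : ℤ × ℤ × ℤ) : YS χ (cj f) = YS χ f := YS_neg _ _ _

lemma W_star (hodd : ∀ x, χ (-x) = - χ x) (L : List ℤ) (f : ℤ × ℤ × ℤ) :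
    W χ (star f) (ngl L) = W χ f L := by
  induction L generalizing f with
  | nil =>
    change 3 * XS χ (star f) = 3 * XS χ f
    rw [XS_star hodd]
  | cons x L ih =>
    change 6 * XS χ (star f) - 2 * ((-x : ℤ) : ZMod N) * YS χ (star f) +
      W χ (st (-x) (star f)) (ngl L) = 6 * XS χ f - 2 * x * YS χ f + W χ (st x f) L
    rw [XS_star hodd, YS_star hodd, st_star, ih]
    push_cast
    ring

lemma W_cj (L : List ℤ) (f : ℤ × ℤ × ℤ) : W χ (cj f) (ngl L) = - W χ f L := by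
  induction L generalizing f with
  | nil =>
    change 3 * XS χ (cj f) = -(3 * XS χ f)
    rw [XS_cj]
    ring
  | cons x L ih =>
    change 6 * XS χ (cj f) - 2 * ((-x : ℤ) : ZMod N) * YS χ (cj f) +
      W χ (st (-x) (cj f)) (ngl L) = -(6 * XS χ f - 2 * x * YS χ f + W χ (st x f) L)
    rw [XS_cj, YS_cj, st_cj, ih]
    push_cast
    ring

lemma V_cj (L : List ℤ) (B m : ℤ) : V χ (-B) m (ngl L) = - V χ B m L := by
  unfold V
  have e1 : ((1, -B, m) : ℤ × ℤ × ℤ) = cj (1, B, m) := rfl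
  rw [e1, W_cj, YS_neg]
  push_cast
  ring

/-- the next state with the quotient increased by one, from the present one -/
def up (g : ℤ × ℤ × ℤ) : ℤ × ℤ × ℤ := (g.1, g.2.1 + 2 * g.1, g.2.2 - g.2.1 - g.1)

lemma st_up (x : ℤ) (f : ℤ × ℤ × ℤ) : st (x + 1) f = up (st x f) := by
  unfold st up
  simp only
  congr 2
  · ring
  · ring

/-- the three term relation of the states -/
lemma three_state (hodd : ∀ x, χ (-x) = - χ x) (hχ0 : χ 0 = 0) (g : ℤ × ℤ × ℤ) :
    3 * (XS χ g + XS χ (st 1 g) - XS χ (up g)) + (YB χ g - YS χ g - YS χ (up g)) = 0 := by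
  obtain ⟨P, R, S⟩ := g
  have h := three_form χ hχ0 P (-R) (-S)
  have a1 : P - -R + -S = P + R - S := by ring
  have a2 : 2 * P - -R = R + 2 * P := by ring
  have a3 : 2 * -S - -R = -(2 * S - R) := by ring
  rw [a1, a2, a3] at h
  -- first
  have b1 : KF.XX χ P (-R) (-S) = - XS χ (P, R, S) := K5.XX_neg χ P R (-S)
  -- second
  have b2 : KF.XX χ (P + R - S) (R + 2 * P) P = XS χ (up (P, R, S)) := by
    have s1 := KF.XX_swap χ hodd (-(P + R - S)) (R + 2 * P) (-P)
    rw [neg_neg, neg_neg] at s1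
    have s2 := XX_negf hodd (P + R - S) (-(R + 2 * P)) P
    rw [neg_neg, K5.XX_neg, neg_neg] at s2
    have e : XS χ (up (P, R, S)) = KF.XX χ P (R + 2 * P) (P + R - S) := by
      unfold XS up
      simp only
      congr 1
      ring
    rw [e, s1, s2]
  -- third
  have b3 : KF.XX χ (P + R - S) (-(2 * S - R)) (-S) = - XS χ (st 1 (P, R, S)) := by
    rw [K5.XX_neg]
    have s1 := KF.XX_swap χ hodd (P + R - S) (2 * S - R) (-S)
    rw [neg_neg] at s1
    have e : XS χ (st 1 (P, R, S)) = KF.XX χ S (2 * S - R) (-(P + R - S)) := by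
      have e' : st 1 ((P, R, S) : ℤ × ℤ × ℤ) = (S, 2 * S - R, P + R - S) := by
        unfold st
        simp only
        congr 2 <;> ring
      rw [e']
      rfl
    rw [e, s1]
  have b4 : KF.YX χ P (-R) (-S) = YS χ (P, R, S) := K5.YX_neg χ P R (-S)
  have b5 : KF.YY χ P (-R) (-S) = - YB χ (P, R, S) := by
    have s1 := KF.YX_swap χ hodd P (-R) (-S)
    rw [neg_neg, K5.YX_neg] at s1
    unfold YB
    simp only
    rw [s1, neg_neg]
  have b6 : KF.YY χ (P + R - S) (R + 2 * P) P = YS χ (up (P, R, S)) := by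
    have s1 := KF.YX_swap χ hodd (P + R - S) (R + 2 * P) P
    have s2 := YX_negf hodd P (-(R + 2 * P)) (P + R - S)
    rw [neg_neg, K5.YX_neg] at s2
    have e : YS χ (up (P, R, S)) = KF.YX χ P (R + 2 * P) (P + R - S) := by
      unfold YS up
      simp only
      congr 1
      ring
    rw [s1] at s2
    rw [e]
    linear_combination (-1 : ZMod N) * s2
  rw [b1, b2, b3, b4, b5, b6] at h
  linear_combination (-1 : ZMod N) * h

omit [NeZero q] in
lemma st_two (y : ℤ) (g : ℤ × ℤ × ℤ) : st y (st 1 g) = star (st (-(y + 1)) (up g)) := by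
  unfold st star up
  simp only
  refine Prod.ext ?_ (Prod.ext ?_ ?_) <;> simp only <;> ring

lemma YB_star (hodd : ∀ x, χ (-x) = - χ x) (f : ℤ × ℤ × ℤ) : YB χ (star f) = - YB χ f :=
  YS_star hodd (f.2.2, f.2.1, f.1)

lemma YS_st_one (hodd : ∀ x, χ (-x) = - χ x) (g : ℤ × ℤ × ℤ) :
    YS χ (st 1 g) = - YS χ (up g) := by
  rw [← YB_st hodd 0 (st 1 g), st_two, YB_star hodd, YB_st hodd]

/-- a quotient one in the middle -/
lemma W_one (hodd : ∀ x, χ (-x) = - χ x) (hχ0 : χ 0 = 0) (x y : ℤ) (L : List ℤ)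
    (f : ℤ × ℤ × ℤ) :
    W χ f (x :: 1 :: y :: L) = W χ f ((x + 1) :: (-(y + 1)) :: ngl L) := by
  have h3 := three_state hodd hχ0 (st x f)
  rw [YB_st hodd] at h3
  have h4 := YS_st_one hodd (st x f)
  change 6 * XS χ f - 2 * x * YS χ f + (6 * XS χ (st x f) - 2 * (1 : ℤ) * YS χ (st x f) +
    (6 * XS χ (st 1 (st x f)) - 2 * y * YS χ (st 1 (st x f)) + W χ (st y (st 1 (st x f))) L)) =
    6 * XS χ f - 2 * ((x + 1 : ℤ) : ZMod N) * YS χ f + (6 * XS χ (st (x + 1) f) -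
      2 * ((-(y + 1) : ℤ) : ZMod N) * YS χ (st (x + 1) f) +
        W χ (st (-(y + 1)) (st (x + 1) f)) (ngl L))
  have h5 : W χ (st y (st 1 (st x f))) L = W χ (st (-(y + 1)) (up (st x f))) (ngl L) := by
    rw [st_two]
    have := W_star (χ := χ) hodd (ngl L) (st (-(y + 1)) (up (st x f)))
    rw [ngl_ngl] at this
    exact this
  rw [st_up, h5, h4]
  push_cast
  linear_combination (2 : ZMod N) * h3

/-- a quotient minus one in the middle -/
lemma W_mone (hodd : ∀ x, χ (-x) = - χ x) (hχ0 : χ 0 = 0) (x y : ℤ) (L : List ℤ)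
    (f : ℤ × ℤ × ℤ) :
    W χ f (x :: (-1) :: y :: L) = W χ f ((x - 1) :: (-(y - 1)) :: ngl L) := by
  have h1 := W_one hodd hχ0 (-x) (-y) (ngl L) (cj f)
  have e1 : (-x) :: 1 :: (-y) :: ngl L = ngl (x :: (-1) :: y :: L) := by simp [ngl]
  have e2 : (-x + 1) :: (-(-y + 1)) :: ngl (ngl L) =
      ngl ((x - 1) :: (-(y - 1)) :: ngl L) := by
    simp only [ngl, List.map_cons, List.cons.injEq, and_true]
    constructor <;> ring
  rw [e1, e2, W_cj, W_cj] at h1
  exact neg_injective h1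

/-- a quotient one at the start -/
lemma V_one (hodd : ∀ x, χ (-x) = - χ x) (hχ0 : χ 0 = 0) (B m y : ℤ) (L : List ℤ) :
    V χ B m (1 :: y :: L) = V χ (B + 2) (m - B - 1) ((-(y + 1)) :: ngl L) := by
  have h3 := three_state hodd hχ0 (1, B, m)
  have h4 := YS_st_one hodd (1, B, m)
  have eu : up (1, B, m) = (1, B + 2, m - B - 1) := by unfold up; simp
  have h5 : W χ (st y (st 1 (1, B, m))) L = W χ (st (-(y + 1)) (up (1, B, m))) (ngl L) := by
    rw [st_two]
    have := W_star (χ := χ) hodd (ngl L) (st (-(y + 1)) (up (1, B, m)))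
    rw [ngl_ngl] at this
    exact this
  have h6 : YS χ (m, B, 1) = YB χ (1, B, m) := rfl
  have h7 : YS χ (m - B - 1, B + 2, 1) = YB χ (1, B, m) := by
    have a1 := YB_st hodd 0 ((m, -B, 1) : ℤ × ℤ × ℤ)
    have a2 := YB_st hodd 1 ((m, -B, 1) : ℤ × ℤ × ℤ)
    have e1 : st 0 ((m, -B, 1) : ℤ × ℤ × ℤ) = (1, B, m) := by
      rw [st_zero]; simp
    have e2 : st 1 ((m, -B, 1) : ℤ × ℤ × ℤ) = (1, B + 2, m - B - 1) := by
      have := st_up 0 ((m, -B, 1) : ℤ × ℤ × ℤ)
      rw [zero_add, e1, eu] at this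
      exact this
    rw [e1] at a1
    rw [e2] at a2
    rw [a1, ← a2]
    rfl
  change -(B : ZMod N) * YS χ (m, B, 1) + (6 * XS χ (1, B, m) - 2 * (1 : ℤ) * YS χ (1, B, m) +
    (6 * XS χ (st 1 (1, B, m)) - 2 * y * YS χ (st 1 (1, B, m)) +
      W χ (st y (st 1 (1, B, m))) L)) =
    -((B + 2 : ℤ) : ZMod N) * YS χ (m - B - 1, B + 2, 1) +
      (6 * XS χ (1, B + 2, m - B - 1) - 2 * ((-(y + 1) : ℤ) : ZMod N) *
        YS χ (1, B + 2, m - B - 1) + W χ (st (-(y + 1)) (1, B + 2, m - B - 1)) (ngl L))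
  rw [h5, h4, h6, h7, eu]
  rw [eu] at h3
  push_cast
  linear_combination (2 : ZMod N) * h3

/-- a quotient minus one at the start -/
lemma V_mone (hodd : ∀ x, χ (-x) = - χ x) (hχ0 : χ 0 = 0) (B m y : ℤ) (L : List ℤ) :
    V χ B m ((-1) :: y :: L) = V χ (B - 2) (m + B - 1) ((-(y - 1)) :: ngl L) := by
  have h1 := V_one hodd hχ0 (-B) m (-y) (ngl L)
  have e1 : (1 : ℤ) :: (-y) :: ngl L = ngl ((-1) :: y :: L) := by simp [ngl]
  have e2 : (-(-y + 1)) :: ngl (ngl L) = ngl ((-(y - 1)) :: ngl L) := by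
    simp only [ngl, List.map_cons, List.cons.injEq, and_true]
    ring
  have e3 : -B + 2 = -(B - 2) := by ring
  have e4 : m - -B - 1 = m + B - 1 := by ring
  rw [e1, e2, e3, e4, V_cj, V_cj] at h1
  exact neg_injective h1

end Sums

/-! ### moves -/

/-- closing condition after a quotient one -/
lemma Clo_one {M : ℕ} {x y : ℤ} {L : List ℤ} {f : ℤ × ℤ × ℤ}
    (h : Clo M (en f (x :: 1 :: y :: L))) : Clo M (en f ((x + 1) :: (-(y + 1)) :: ngl L)) := by
  change Clo M (en (st y (st 1 (st x f))) L) at h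
  change Clo M (en (st (-(y + 1)) (st (x + 1) f)) (ngl L))
  rw [st_two, ← st_up] at h
  have e := en_star (ngl L) (st (-(y + 1)) (st (x + 1) f))
  rw [ngl_ngl] at e
  rw [e] at h
  have := h.star
  rwa [star_star] at this

lemma Clo_cj {M : ℕ} {L : List ℤ} {f : ℤ × ℤ × ℤ} :
    Clo M (en (cj f) (ngl L)) ↔ Clo M (en f L) := by
  rw [en_cj]
  exact Iff.rfl

lemma Clo_mone {M : ℕ} {x y : ℤ} {L : List ℤ} {f : ℤ × ℤ × ℤ}
    (h : Clo M (en f (x :: (-1) :: y :: L))) :
    Clo M (en f ((x - 1) :: (-(y - 1)) :: ngl L)) := by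
  rw [← Clo_cj] at h ⊢
  have e1 : ngl (x :: (-1) :: y :: L) = (-x) :: 1 :: (-y) :: ngl L := by simp [ngl]
  have e2 : ngl ((x - 1) :: (-(y - 1)) :: ngl L) =
      (-x + 1) :: (-(-y + 1)) :: ngl (ngl L) := by
    simp only [ngl, List.map_cons, List.cons.injEq, and_true]
    constructor <;> ring
  rw [e1] at h
  rw [e2]
  exact Clo_one h

lemma Clo_one_start {M : ℕ} {B m y : ℤ} {L : List ℤ}
    (h : Clo M (en (1, B, m) (1 :: y :: L))) :
    Clo M (en (1, B + 2, m - B - 1) ((-(y + 1)) :: ngl L)) := by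
  have e0 : up (1, B, m) = (1, B + 2, m - B - 1) := by unfold up; simp
  change Clo M (en (st y (st 1 (1, B, m))) L) at h
  change Clo M (en (st (-(y + 1)) (1, B + 2, m - B - 1)) (ngl L))
  rw [st_two, e0] at h
  have e := en_star (ngl L) (st (-(y + 1)) (1, B + 2, m - B - 1))
  rw [ngl_ngl] at e
  rw [e] at h
  have := h.star
  rwa [star_star] at this

lemma Clo_mone_start {M : ℕ} {B m y : ℤ} {L : List ℤ}
    (h : Clo M (en (1, B, m) ((-1) :: y :: L))) :
    Clo M (en (1, B - 2, m + B - 1) ((-(y - 1)) :: ngl L)) := by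
  rw [← Clo_cj] at h ⊢
  have e1 : ngl ((-1) :: y :: L) = 1 :: (-y) :: ngl L := by simp [ngl]
  have e2 : ngl ((-(y - 1)) :: ngl L) = (-(-y + 1)) :: ngl (ngl L) := by
    simp only [ngl, List.map_cons, List.cons.injEq, and_true]
    ring
  have c1 : cj (1, B, m) = (1, -B, m) := rfl
  have c2 : cj (1, B - 2, m + B - 1) = (1, -B + 2, m - -B - 1) := by
    unfold cj
    refine Prod.ext ?_ (Prod.ext ?_ ?_) <;> simp only <;> ring
  rw [e1, c1] at h
  rw [e2, c2]
  exact Clo_one_start h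

variable {M : ℕ} {D : ℤ}

lemma Eqv.one (x y : ℤ) (L : List ℤ) :
    Eqv M D (x :: 1 :: y :: L) ((x + 1) :: (-(y + 1)) :: ngl L) := fun f _ =>
  ⟨fun _ _ _ _ _ hχ => W_one hχ.odd hχ.zero x y L f, Clo_one⟩

lemma Eqv.mone (x y : ℤ) (L : List ℤ) :
    Eqv M D (x :: (-1) :: y :: L) ((x - 1) :: (-(y - 1)) :: ngl L) := fun f _ =>
  ⟨fun _ _ _ _ _ hχ => W_mone hχ.odd hχ.zero x y L f, Clo_mone⟩

lemma Eqv.app {L L' : List ℤ} (h : Eqv M D L L') (u : List ℤ) :
    Eqv M D (u ++ L) (u ++ L') := by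
  induction u with
  | nil => exact h
  | cons x u ih => exact ih.cons x

/-- **the moves on words** -/
inductive Move (M : ℕ) : List ℤ → List ℤ → Prop
  /-- a letter may be changed modulo `M` -/
  | cong (u v : List ℤ) (x y : ℤ) (h : (M : ℤ) ∣ x - y) : Move M (u ++ x :: v) (u ++ y :: v)
  /-- a letter zero merges its neighbours -/
  | zero (u v : List ℤ) (x y : ℤ) : Move M (u ++ x :: 0 :: y :: v) (u ++ (x + y) :: v)
  /-- a letter one -/
  | one (u v : List ℤ) (x y : ℤ) :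
      Move M (u ++ x :: 1 :: y :: v) (u ++ (x + 1) :: (-(y + 1)) :: v.map fun z => -z)
  /-- a letter minus one -/
  | mone (u v : List ℤ) (x y : ℤ) :
      Move M (u ++ x :: (-1) :: y :: v) (u ++ (x - 1) :: (-(y - 1)) :: v.map fun z => -z)
  /-- a letter zero at the start -/
  | zero_start (v : List ℤ) (y : ℤ) : Move M (0 :: y :: v) v
  /-- a letter one at the start -/
  | one_start (v : List ℤ) (y : ℤ) : Move M (1 :: y :: v) ((-(y + 1)) :: v.map fun z => -z)
  /-- a letter minus one at the start -/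
  | mone_start (v : List ℤ) (y : ℤ) : Move M ((-1) :: y :: v) ((-(y - 1)) :: v.map fun z => -z)
  /-- a letter zero at the end -/
  | zero_end (u : List ℤ) : Move M (u ++ [0]) u

/-- transfer of the half sums -/
def Tr (M : ℕ) (D : ℤ) (L L' : List ℤ) : Prop :=
  ∀ B m : ℤ, B ^ 2 + 4 * m = D → Clo M (en (1, B, m) L) →
    ∃ B' m' : ℤ, B' ^ 2 + 4 * m' = D ∧ (2 : ℤ) ∣ B' - B ∧ Clo M (en (1, B', m') L') ∧
      ∀ (q N : ℕ) [NeZero q] (l : ℕ) (χ : ZMod q → ZMod N), RC M D l χ →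
        V χ B m L = V χ B' m' L'

lemma Tr.refl (L : List ℤ) : Tr M D L L := fun B m h hc =>
  ⟨B, m, h, by simp, hc, fun _ _ _ _ _ _ => rfl⟩

lemma Tr.trans {L L' L'' : List ℤ} (h : Tr M D L L') (h' : Tr M D L' L'') : Tr M D L L'' := by
  intro B m hD hc
  obtain ⟨B', m', a1, a2, a3, a4⟩ := h B m hD hc
  obtain ⟨B'', m'', b1, b2, b3, b4⟩ := h' B' m' a1 a3
  refine ⟨B'', m'', b1, ?_, b3, fun q N _ l χ hχ => (a4 q N l χ hχ).trans (b4 q N l χ hχ)⟩
  have e : B'' - B = (B'' - B') + (B' - B) := by ring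
  rw [e]
  exact dvd_add b2 a2

lemma dis_one (B m : ℤ) : dis (1, B, m) = B ^ 2 + 4 * m := by
  unfold dis
  ring

lemma Eqv.tr {L L' : List ℤ} (h : Eqv M D L L') : Tr M D L L' := by
  intro B m hD hc
  have hdB : (M : ℤ) ∣ dis (1, B, m) - D := by
    rw [dis_one, hD, sub_self]
    exact dvd_zero _
  refine ⟨B, m, hD, by simp, (h _ hdB).2 hc, ?_⟩
  intro q N _ l χ hχ
  unfold V
  rw [(h _ hdB).1 q N l χ hχ]

/-- **the moves transfer the half sums** -/
theorem Move.tr {L L' : List ℤ} (h : Move M L L') : Tr M D L L' := by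
  cases h with
  | cong u v x y h => exact ((Eqv.head h v).app u).tr
  | zero u v x y => exact ((Eqv.mid x y v).app u).tr
  | one u v x y => exact ((Eqv.one x y v).app u).tr
  | mone u v x y => exact ((Eqv.mone x y v).app u).tr
  | zero_end =>
    have := ((Eqv.last (M := M) (D := D)).app L').tr
    rwa [List.append_nil] at this
  | zero_start v y =>
    intro B m hD hc
    have e1 : st y (st 0 ((1, B, m) : ℤ × ℤ × ℤ)) = (1, B + 2 * y, m - B * y - y ^ 2) := by
      rw [st_zero]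
      unfold st
      refine Prod.ext ?_ (Prod.ext ?_ ?_) <;> simp only <;> ring
    change Clo M (en (st y (st 0 (1, B, m))) L') at hc
    rw [e1] at hc
    exact ⟨B + 2 * y, m - B * y - y ^ 2, by rw [← hD]; ring, ⟨y, by ring⟩, hc,
      fun q N _ l χ hχ => V_front hχ.odd B m y L'⟩
  | one_start v y =>
    intro B m hD hc
    exact ⟨B + 2, m - B - 1, by rw [← hD]; ring, ⟨1, by ring⟩, Clo_one_start hc,
      fun q N _ l χ hχ => V_one hχ.odd hχ.zero B m y v⟩
  | mone_start v y =>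
    intro B m hD hc
    exact ⟨B - 2, m + B - 1, by rw [← hD]; ring, ⟨-1, by ring⟩, Clo_mone_start hc,
      fun q N _ l χ hχ => V_mone hχ.odd hχ.zero B m y v⟩

/-- a word which can be brought to at most three letters -/
theorem exists_three (M : ℕ) (B m : ℤ) {L L' : List ℤ}
    (hL : Relation.ReflTransGen (Move M) L L') (hlen : L'.length ≤ 3)
    (hc : Clo M (en (1, B, m) L)) :
    ∃ (x y z B' m' : ℤ), B' ^ 2 + 4 * m' = B ^ 2 + 4 * m ∧ Clo M (en (1, B', m') [x, y, z]) ∧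
      (2 : ℤ) ∣ B' - B ∧
      ∀ (q N : ℕ) [NeZero q] (l : ℕ) (χ : ZMod q → ZMod N), RC M (B ^ 2 + 4 * m) l χ →
        V χ B m L = V χ B' m' [x, y, z] := by
  have h1 : Tr M (B ^ 2 + 4 * m) L L' := by
    clear hlen
    induction hL with
    | refl => exact Tr.refl _
    | tail _ hm ih => exact ih.trans hm.tr
  have key : ∃ x y z, Eqv M (B ^ 2 + 4 * m) L' [x, y, z] := by
    match L', hlen with
    | [], _ =>
      exact ⟨0, 0, 0, Eqv.last'.trans ((Eqv.last'.cons 0).trans ((Eqv.last'.cons 0).cons 0))⟩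
    | [x], _ => exact ⟨x, 0, 0, (Eqv.last'.cons x).trans ((Eqv.last'.cons 0).cons x)⟩
    | [x, y], _ => exact ⟨x, y, 0, (Eqv.last'.cons y).cons x⟩
    | [x, y, z], _ => exact ⟨x, y, z, Eqv.refl _⟩
    | _ :: _ :: _ :: _ :: T, hlen => exact absurd hlen (by simp only [List.length_cons]; omega)
  obtain ⟨x, y, z, hK⟩ := key
  obtain ⟨B', m', a1, a2, a3, a4⟩ := (h1.trans hK.tr) B m rfl hc
  exact ⟨x, y, z, B', m', a1, a3, a2, a4⟩

end Pool.Agent.LibH4.LO
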