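import Pool.Agent.Lib_helper4.CFFive
import Mathlib.NumberTheory.DiophantineApproximation.Basic

/-!
Odd periods of any length: small primitive norms are last coefficients of the states.
-/

namespace Pool.Agent.LibH4.LO

open Function Pool.Agent.Lib_helper5 Pool.Agent.LibH4 Pool.Agent.LibH4.CFO

variable {m B : ℤ} {s : ℝ} {x : ℕ → ℝ} {c : ℕ → ℕ}

/-- the form of a state -/
def F (m B : ℤ) (c : ℕ → ℕ) (k : ℕ) (v u : ℤ) : ℤ :=
  QP m B c k * v ^ 2 + QR m B c k * u * v - QS m B c k * u ^ 2

lemma F_succ (k : ℕ) (v u : ℤ) :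
    F m B c k v u = - F m B c (k + 1) (u - c k * v) v := by
  unfold F
  rw [QP_succ, QR_succ, QS_succ]
  ring

lemma step_inv (h : Data m B s x c) (k : ℕ) : (Int.fract (x k))⁻¹ = x (k + 1) := by
  rw [h.step k]; rfl

lemma conv_pos (h : Data m B s x c) (n : ℕ) (k : ℕ) : (0 : ℚ) < (x k).convergent n := by
  induction n generalizing k with
  | zero =>
    rw [Real.convergent_zero, ← h.fl k]
    have := (inv_of h k).cpos
    exact_mod_cast this
  | succ n ih =>
    rw [Real.convergent_succ, step_inv h, ← h.fl k]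
    have h1 := ih (k + 1)
    have h2 : (0 : ℚ) ≤ ((c k : ℤ) : ℚ) := by positivity
    have h3 : (0 : ℚ) < ((x (k + 1)).convergent n)⁻¹ := by positivity
    linarith

/-- values of the form at the convergents -/
lemma conv_val (h : Data m B s x c) (n : ℕ) : ∀ (k : ℕ) (u v : ℤ), 0 < v → IsCoprime u v →
    ((u : ℚ) / v = (x k).convergent n) → |F m B c k v u| = QS m B c (k + 1 + n) := by
  induction n with
  | zero =>
    intro k u v hv hco he
    rw [Real.convergent_zero, ← h.fl k] at he
    have hv' : (v : ℚ) ≠ 0 := by exact_mod_cast hv.ne'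
    rw [div_eq_iff hv'] at he
    have he' : u = c k * v := by exact_mod_cast he
    have hv1 : IsUnit v := by
      rw [he'] at hco
      exact isCoprime_self.1 (IsCoprime.of_mul_left_right hco)
    have hv2 : v = 1 := by
      rcases Int.isUnit_iff.1 hv1 with h1 | h1
      · exact h1
      · omega
    rw [hv2, mul_one] at he'
    subst he' hv2
    have e : F m B c k 1 (c k) = QS m B c (k + 1) := by
      unfold F
      rw [QS_succ]
      ring
    rw [e]
    exact abs_of_pos (inv_of h (k + 1)).Spos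
  | succ n ih =>
    intro k u v hv hco he
    rw [Real.convergent_succ, step_inv h, ← h.fl k] at he
    have hq := conv_pos h n (k + 1)
    have hv' : (0 : ℚ) < v := by exact_mod_cast hv
    have h1 : ((u - c k * v : ℤ) : ℚ) / v = ((x (k + 1)).convergent n)⁻¹ := by
      push_cast
      rw [sub_div, he, mul_div_cancel_right₀ _ hv'.ne']
      push_cast
      ring
    have h2 : (0 : ℚ) < ((u - c k * v : ℤ) : ℚ) := by
      have h3 : ((u - c k * v : ℤ) : ℚ) = ((x (k + 1)).convergent n)⁻¹ * v := by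
        rw [← h1, div_mul_cancel₀ _ hv'.ne']
      rw [h3]
      positivity
    have h3 : 0 < u - c k * v := by exact_mod_cast h2
    have h4 : ((v : ℚ) / ((u - c k * v : ℤ) : ℚ)) = (x (k + 1)).convergent n := by
      rw [← inv_div, h1, inv_inv]
    have hco' : IsCoprime v (u - c k * v) := by
      obtain ⟨a, b, hab⟩ := hco
      exact ⟨b + a * c k, a, by linear_combination hab⟩
    have h5 := ih (k + 1) v (u - c k * v) h3 hco' h4
    rw [F_succ, abs_neg, h5]
    congr 1
    ring

/-- the convergents of the inverse -/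
lemma conv_inv {θ : ℝ} (hθ : 1 < θ) {q : ℚ} (hq : q ≠ 0) {n : ℕ}
    (h : q = (θ⁻¹).convergent n) : ∃ i, q⁻¹ = θ.convergent i := by
  have h0 : ⌊θ⁻¹⌋ = 0 := by
    rw [Int.floor_eq_iff]
    constructor
    · push_cast; positivity
    · push_cast
      rw [zero_add]
      exact inv_lt_one_of_one_lt₀ hθ
  cases n with
  | zero =>
    rw [Real.convergent_zero, h0] at h
    exact absurd (by exact_mod_cast h) hq
  | succ n =>
    refine ⟨n, ?_⟩
    have hf : Int.fract θ⁻¹ = θ⁻¹ := by
      rw [Int.fract, h0]; push_cast; ring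
    rw [Real.convergent_succ, h0, hf, inv_inv] at h
    rw [h]
    push_cast
    rw [zero_add, inv_inv]

/-- **small primitive norms** -/
theorem small_norm_aux (h : Data m B s x c) (hm : 0 < m) (hB : 1 ≤ B) {u v : ℤ} (hv : 0 < v)
    (huv : v * B ≤ 2 * u) (hco : IsCoprime u v)
    (hn : 4 * (u ^ 2 - B * u * v - m * v ^ 2) ^ 2 < B ^ 2 + 4 * m) :
    ∃ j, QS m B c j = |u ^ 2 - B * u * v - m * v ^ 2| := by
  have hBR : (1 : ℝ) ≤ B := by exact_mod_cast hB
  have hs : 0 < s := by linarith [h.Bs]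
  have hsq : s ^ 2 = (B : ℝ) ^ 2 + 4 * m := by
    have := h.sq
    push_cast at this
    exact this
  have hvR : (0 : ℝ) < v := by exact_mod_cast hv
  have hv1 : (1 : ℝ) ≤ v := by exact_mod_cast hv
  have huR : (v : ℝ) * B ≤ 2 * u := by exact_mod_cast huv
  have hu0 : (0 : ℝ) < u := by nlinarith
  have huI : 0 < u := by exact_mod_cast hu0
  have hmR : (0 : ℝ) < m := by exact_mod_cast hm
  -- the norm
  set n : ℤ := u ^ 2 - B * u * v - m * v ^ 2 with hn_def
  have hF : F m B c 0 v u = -n := by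
    unfold F
    have e1 : QP m B c 0 = m := rfl
    have e2 : QR m B c 0 = B := rfl
    have e3 : QS m B c 0 = 1 := rfl
    rw [e1, e2, e3, hn_def]
    ring
  have hx0 := h.x0
  have hθ : 1 < x 0 := h.x0pos
  -- the factors
  have hA : ((n : ℤ) : ℝ) = (u - v * x 0) * (u - v * ((B - s) / 2)) := by
    rw [hx0, hn_def]
    push_cast
    linear_combination ((v : ℝ) ^ 2 / 4) * hsq
  set b' : ℝ := u - v * ((B - s) / 2) with hb'
  have hb'pos : 0 < b' := by
    have h1 : (v : ℝ) * ((B - s) / 2) < 0 := by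
      have : (B - s) / 2 < 0 := by linarith [h.Bs]
      exact mul_neg_of_pos_of_neg hvR this
    linarith
  have h2n : 2 * |(n : ℝ)| < s := by
    have h1 : (4 : ℝ) * (n : ℝ) ^ 2 < s ^ 2 := by
      rw [hsq]
      exact_mod_cast hn
    have h2 : (2 * |(n : ℝ)|) ^ 2 < s ^ 2 := by
      rw [mul_pow, sq_abs]
      linarith
    exact lt_of_pow_lt_pow_left₀ 2 hs.le h2
  have habs : |(n : ℝ)| = |u - v * x 0| * b' := by
    rw [hA, abs_mul, abs_of_pos hb'pos]
  have hnpos : 0 ≤ |(n : ℝ)| := abs_nonneg _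
  have hirr : (u : ℝ) - v * x 0 ≠ 0 := by
    intro h0
    have hxi := (inv_of h 0).xi
    apply hxi
    refine ⟨(u : ℚ) / v, ?_⟩
    push_cast
    rw [div_eq_iff hvR.ne']
    linarith
  suffices hconv : ∃ i, ((u : ℚ) / v) = (x 0).convergent i by
    obtain ⟨i, hi⟩ := hconv
    have := conv_val h i 0 u v hv hco hi
    rw [hF, abs_neg] at this
    exact ⟨_, this.symm⟩
  have hcoN : Nat.Coprime u.natAbs v.natAbs := Int.isCoprime_iff_gcd_eq_one.1 hco
  rcases lt_or_gt_of_ne hirr with hneg | hpos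
  · -- `u < v θ`
    have hlt : (u : ℝ) < v * x 0 := by linarith
    have hden : ((v : ℚ) / u).den = u := by
      have := Rat.den_div_eq_of_coprime huI hcoN.symm
      exact_mod_cast this
    have hkey : 2 * |(n : ℝ)| * u < b' * x 0 := by
      have h1 : (m : ℝ) * u < m * (v * x 0) := mul_lt_mul_of_pos_left hlt hmR
      have h2 : b' * x 0 = u * x 0 + m * v := by
        rw [hb', hx0]
        linear_combination ((v : ℝ) / 4) * hsq
      have h3 : x 0 * (u * x 0 + m * v) > x 0 * (u * s) := by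
        have e1 : x 0 * s = x 0 * x 0 + m := by
          rw [hx0]
          linear_combination (-(1 : ℝ) / 4) * hsq + (1 / 2) * hsq
        nlinarith
      have h4 : u * s < u * x 0 + m * v := lt_of_mul_lt_mul_left h3 (by linarith)
      rw [h2]
      calc 2 * |(n : ℝ)| * u < s * u := mul_lt_mul_of_pos_right h2n hu0
        _ = u * s := by ring
        _ < _ := h4
    have hleg : |(x 0)⁻¹ - (((v : ℚ) / u : ℚ) : ℝ)| < 1 / (2 * (((v : ℚ) / u).den : ℝ) ^ 2) := by
      have hdR : ((((v : ℚ) / u).den : ℕ) : ℝ) = u := by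
        have : (((((v : ℚ) / u).den : ℕ) : ℤ) : ℝ) = ((u : ℤ) : ℝ) := by rw [hden]
        exact_mod_cast this
      rw [hdR]
      have hx0p : 0 < x 0 := by linarith
      have e1 : (x 0)⁻¹ - (((v : ℚ) / u : ℚ) : ℝ) = (u - v * x 0) / (u * x 0) := by
        push_cast
        field_simp
      rw [e1, abs_div, abs_of_pos (show 0 < (u : ℝ) * x 0 by positivity),
        div_lt_div_iff₀ (by positivity) (by positivity)]
      have e2 : |(u : ℝ) - v * x 0| = |(n : ℝ)| / b' := by
        rw [habs, mul_div_cancel_right₀ _ hb'pos.ne']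
      rw [e2, div_mul_eq_mul_div, div_lt_iff₀ hb'pos]
      nlinarith
    obtain ⟨i, hi⟩ := Real.exists_rat_eq_convergent hleg
    have hq0 : ((v : ℚ) / u) ≠ 0 := by
      have h1 : (0 : ℚ) < v := by exact_mod_cast hv
      have h2 : (0 : ℚ) < u := by exact_mod_cast huI
      positivity
    obtain ⟨j, hj⟩ := conv_inv hθ hq0 hi
    rw [inv_div] at hj
    exact ⟨j, hj⟩
  · -- `v θ < u`
    have hlt : (v : ℝ) * x 0 < u := by linarith
    have hden : ((u : ℚ) / v).den = v := by
      have := Rat.den_div_eq_of_coprime hv hcoN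
      exact_mod_cast this
    have hkey : 2 * |(n : ℝ)| * v < b' := by
      have h1 : b' = (u - v * x 0) + v * s := by
        rw [hb', hx0]; ring
      rw [h1]
      nlinarith
    have hleg : |x 0 - (((u : ℚ) / v : ℚ) : ℝ)| < 1 / (2 * (((u : ℚ) / v).den : ℝ) ^ 2) := by
      have hdR : ((((u : ℚ) / v).den : ℕ) : ℝ) = v := by
        have : (((((u : ℚ) / v).den : ℕ) : ℤ) : ℝ) = ((v : ℤ) : ℝ) := by rw [hden]
        exact_mod_cast this
      rw [hdR]
      have e1 : x 0 - (((u : ℚ) / v : ℚ) : ℝ) = -((u - v * x 0) / v) := by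
        push_cast
        field_simp
        ring
      rw [e1, abs_neg, abs_div, abs_of_pos hvR, div_lt_div_iff₀ hvR (by positivity)]
      have e2 : |(u : ℝ) - v * x 0| = |(n : ℝ)| / b' := by
        rw [habs, mul_div_cancel_right₀ _ hb'pos.ne']
      rw [e2, div_mul_eq_mul_div, div_lt_iff₀ hb'pos]
      nlinarith
    exact Real.exists_rat_eq_convergent hleg

/-- **small primitive norms** -/
theorem small_norm (h : Data m B s x c) (hm : 0 < m) (hB : 1 ≤ B) {X Y : ℤ} (hco : IsCoprime X Y)
    (hn : 4 * (X ^ 2 + B * X * Y - m * Y ^ 2) ^ 2 < B ^ 2 + 4 * m) :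
    ∃ j, QS m B c j = |X ^ 2 + B * X * Y - m * Y ^ 2| := by
  rcases eq_or_ne Y 0 with hY | hY
  · subst hY
    refine ⟨0, ?_⟩
    have hX : IsUnit X := by
      rw [isCoprime_zero_right] at hco
      exact hco
    have h1 : X ^ 2 = 1 := by
      rcases Int.isUnit_iff.1 hX with h1 | h1 <;> rw [h1] <;> norm_num
    have h2 : X ^ 2 + B * X * 0 - m * 0 ^ 2 = 1 := by rw [h1]; ring
    rw [h2]
    rfl
  -- the sign of `Y`
  have main : ∀ u v : ℤ, 0 < v → IsCoprime u v →
      4 * (u ^ 2 - B * u * v - m * v ^ 2) ^ 2 < B ^ 2 + 4 * m →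
      ∃ j, QS m B c j = |u ^ 2 - B * u * v - m * v ^ 2| := by
    intro u v hv hco hn
    by_cases huv : v * B ≤ 2 * u
    · exact small_norm_aux h hm hB hv huv hco hn
    · push Not at huv
      have e : (v * B - u) ^ 2 - B * (v * B - u) * v - m * v ^ 2 =
          u ^ 2 - B * u * v - m * v ^ 2 := by ring
      have hco' : IsCoprime (v * B - u) v := by
        obtain ⟨a, b, hab⟩ := hco
        exact ⟨-a, b + a * B, by linear_combination hab⟩
      have := small_norm_aux h hm hB hv (u := v * B - u) (by linarith) hco' (by rw [e]; exact hn)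
      rw [e] at this
      exact this
  rcases lt_or_gt_of_ne hY with hneg | hpos
  · have e : X ^ 2 + B * X * Y - m * Y ^ 2 = X ^ 2 - B * X * (-Y) - m * (-Y) ^ 2 := by ring
    rw [e] at hn ⊢
    exact main X (-Y) (by omega) hco.neg_right hn
  · have e : X ^ 2 + B * X * Y - m * Y ^ 2 = (-X) ^ 2 - B * (-X) * Y - m * Y ^ 2 := by ring
    rw [e] at hn ⊢
    exact main (-X) Y hpos hco.neg_left hn

end Pool.Agent.LibH4.LO
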